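import Pool.Agent.Lib.MP_7073fe_pr.Faces

/-!
Independent random points are in general position; the expected face number as a sum of
probabilities.
-/

set_option autoImplicit false

open Set Module Filter Topology MeasureTheory

namespace Pool.Agent.Lib.MP_7073fe_pr

theorem pi_null {ι : Type} [Fintype ι] [DecidableEq ι] {α : ι → Type} [∀ i, MeasurableSpace (α i)]
    (μ : ∀ i, Measure (α i)) [∀ i, IsProbabilityMeasure (μ i)] (a : ι) {A : Set (∀ i, α i)}
    (hA : MeasurableSet A) (h : ∀ x, μ a {y | Function.update x a y ∈ A} = 0) :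
    Measure.pi μ A = 0 := by
  rcases A.eq_empty_or_nonempty with rfl | ⟨x, -⟩
  · simp
  rw [← lintegral_indicator_one hA, lintegral_eq_lmarginal_univ x,
    lmarginal_erase' _ (measurable_one.indicator hA) (Finset.mem_univ a)]
  have : (fun x : ∀ i, α i => ∫⁻ y, A.indicator (1 : (∀ i, α i) → ENNReal)
      (Function.update x a y) ∂μ a) = fun _ => 0 := by
    funext x
    have hm : MeasurableSet {y | Function.update x a y ∈ A} := hA.preimage (measurable_update x)
    rw [← h x, ← lintegral_indicator_one hm]
    rfl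
  rw [this]
  simp [lmarginal]

variable {E : Type} [NormedAddCommGroup E] [NormedSpace ℝ E] [FiniteDimensional ℝ E] {n : ℕ}
  [MeasurableSpace E] [BorelSpace E]

omit [FiniteDimensional ℝ E] [MeasurableSpace E] [BorelSpace E] in
theorem isOpen_li (S : Finset (Fin n)) :
    IsOpen {X : Fin n → E | LinearIndepOn ℝ (fun i => ((1 : ℝ), X i)) (S : Set (Fin n))} :=
  (isOpen_setOfPred_linearIndependent (𝕜 := ℝ) (E := ℝ × E) (ι := (S : Set (Fin n)))).preimage
    (f := fun (X : Fin n → E) (i : (S : Set (Fin n))) => ((1 : ℝ), X i)) (by fun_prop)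

theorem ae_gp (μ : Measure E) [IsProbabilityMeasure μ]
    (h0 : ∀ (l : E →ₗ[ℝ] ℝ) (c : ℝ), l ≠ 0 → μ {y | l y = c} = 0) :
    ∀ᵐ X ∂(Measure.pi fun _ : Fin n => μ), GP X := by
  classical
  refine ae_all_iff.2 fun S => ?_
  induction S using Finset.induction_on with
  | empty => simp
  | insert a S ha ih =>
    by_cases hc : (insert a S).card ≤ finrank ℝ E + 1
    swap
    · simp only [hc, false_imp_iff, eventually_true]
    rw [Finset.card_insert_of_notMem ha] at hc
    have hnull := pi_null (fun _ : Fin n => μ) a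
      (A := {X | LinearIndepOn ℝ (fun i => ((1 : ℝ), X i)) (S : Set (Fin n))} ∩
        {X | LinearIndepOn ℝ (fun i => ((1 : ℝ), X i)) ((insert a S : Finset _) : Set (Fin n))}ᶜ)
      ((isOpen_li S).measurableSet.inter (isOpen_li _).measurableSet.compl) fun X => by
        have hW : Submodule.span ℝ ((fun i => ((1 : ℝ), X i)) '' S) < ⊤ := by
          refine lt_top_iff_ne_top.2 fun h => ?_
          have h1 := finrank_span_finset_le_card (R := ℝ) (S.image fun i => ((1 : ℝ), X i))
          rw [Set.finrank, Finset.coe_image, h, finrank_top, finrank_prod, finrank_self] at h1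
          have := Finset.card_image_le (s := S) (f := fun i => ((1 : ℝ), X i))
          omega
        obtain ⟨φ, hφ, hle⟩ := Submodule.exists_le_ker_of_lt_top _ hW
        have hv : ∀ y, φ (1, y) = φ (1, 0) + φ (0, y) := fun y => by rw [← map_add]; simp
        have hsub : ∀ y, Function.update X a y ∈
            {X | LinearIndepOn ℝ (fun i => ((1 : ℝ), X i)) (S : Set (Fin n))} ∩
            {X | LinearIndepOn ℝ (fun i => ((1 : ℝ), X i))
              ((insert a S : Finset _) : Set (Fin n))}ᶜ → φ (0, y) = -φ (1, 0) := by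
          rintro y ⟨h1, h2⟩
          simp only [mem_compl_iff, mem_ofPred_eq, Finset.coe_insert] at h1 h2
          rw [linearIndepOn_insert (by simpa using ha), not_and, not_not] at h2
          have h3 := h2 h1
          rw [Function.update_self, image_congr (g := fun i => ((1 : ℝ), X i)) fun i hi => by
            rw [Function.update_of_ne (fun h : i = a => ha (h ▸ hi))]] at h3
          have h4 : φ (1, y) = 0 := hle h3
          linarith [hv y]
        by_cases hl : φ ∘ₗ LinearMap.inr ℝ ℝ E = 0
        · have h5 : ∀ y, φ (0, y) = 0 := fun y => LinearMap.congr_fun hl y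
          rw [eq_empty_of_forall_notMem (s := {y | Function.update X a y ∈ _}), measure_empty]
          intro y hy
          have h6 := hsub y hy
          refine hφ (LinearMap.ext fun p => ?_)
          have : p = p.1 • ((1 : ℝ), (0 : E)) + (0, p.2) := by ext <;> simp
          rw [this, map_add, map_smul, h5, show φ (1, 0) = 0 by linarith [h5 y]]
          simp
        · exact measure_mono_null hsub (h0 _ (-φ (1, 0)) hl)
    filter_upwards [ih, measure_eq_zero_iff_ae_notMem.1 hnull] with X h1 h2 _
    by_contra h3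
    exact h2 ⟨h1 (by omega), h3⟩

theorem measurableSet_facial (S : Finset (Fin n)) :
    MeasurableSet {X : Fin n → E | Facial X S} := by
  have hcl : ∀ N : ℕ, IsClosed (Prod.fst '' {p : (Fin n → E) ×
      Metric.closedBall (0 : (E →L[ℝ] ℝ) × ℝ) N |
      (∀ i ∈ S, p.2.1.1 (p.1 i) = p.2.1.2) ∧ ∀ i ∉ S, p.2.1.1 (p.1 i) + 1 ≤ p.2.1.2}) := by
    intro N
    refine isClosedMap_fst_of_compactSpace _ ?_
    simp only [ofPred_and, ofPred_forall]
    exact (isClosed_iInter fun i => isClosed_iInter fun _ =>
      isClosed_eq (by fun_prop) (by fun_prop)).inter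
      (isClosed_iInter fun i => isClosed_iInter fun _ => isClosed_le (by fun_prop) (by fun_prop))
  convert MeasurableSet.iUnion fun N => (hcl N).measurableSet using 1
  ext X
  simp only [mem_ofPred_eq, mem_iUnion, mem_image]
  constructor
  · rintro ⟨l, c, h1, h2⟩
    have hev : ∀ᶠ t : ℝ in atTop, ∀ i, i ∉ S → 1 ≤ t * (c - l (X i)) := by
      refine eventually_all.2 fun i => ?_
      by_cases hi : i ∈ S
      · simp [hi]
      · simp only [hi, not_false_eq_true, forall_const]
        exact (tendsto_id.atTop_mul_const (sub_pos.2 (h2 i hi))).eventually_ge_atTop 1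
    obtain ⟨t, ht⟩ := hev.exists
    obtain ⟨N, hN⟩ := exists_nat_ge ‖(t • l, t * c)‖
    refine ⟨N, (X, ⟨(t • l, t * c), mem_closedBall_zero_iff.2 hN⟩),
      ⟨fun i hi => by simp [h1 i hi], fun i hi => ?_⟩, rfl⟩
    simp only [smul_apply, smul_eq_mul]
    linarith [ht i hi]
  · rintro ⟨N, ⟨Y, ⟨l, c⟩, hb⟩, ⟨h1, h2⟩, rfl⟩
    exact ⟨l, c, h1, fun i hi => lt_of_lt_of_le (lt_add_one _) (h2 i hi)⟩

omit [FiniteDimensional ℝ E] [MeasurableSpace E] [BorelSpace E] in
theorem cnt_eq (X : Fin n → E) (k : ℕ) : (cnt X k : ℝ) =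
    ∑ S ∈ Finset.univ.powersetCard k, {X : Fin n → E | Facial X S}.indicator 1 X := by
  classical
  rw [cnt, Finset.card_filter]
  push_cast
  exact Finset.sum_congr rfl fun S _ => by simp [indicator]

theorem integrable_cnt (P : Measure (Fin n → E)) [IsFiniteMeasure P] (k : ℕ) :
    Integrable (fun X => (cnt X k : ℝ)) P := by
  simp only [cnt_eq]
  exact integrable_finsetSum _ fun S _ => (integrable_const 1).indicator (measurableSet_facial S)

theorem integral_cnt (P : Measure (Fin n → E)) [IsFiniteMeasure P] (k : ℕ) :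
    ∫ X, (cnt X k : ℝ) ∂P = ∑ S ∈ Finset.univ.powersetCard k, P.real {X | Facial X S} := by
  simp only [cnt_eq]
  rw [integral_finsetSum _ fun S _ => (integrable_const 1).indicator (measurableSet_facial S)]
  exact Finset.sum_congr rfl fun S _ => integral_indicator_one (measurableSet_facial S)

theorem pi_event {α : Type} [MeasurableSpace α] (μ : Measure α) [IsProbabilityMeasure μ]
    (S : Finset (Fin n)) (A : Set α) {B : Set α} (hB : MeasurableSet B) :
    (Measure.pi fun _ : Fin n => μ).real {X | (∀ i ∈ S, X i ∈ A) ∧ ∀ i ∉ S, X i ∉ B} =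
      μ.real A ^ S.card * (1 - μ.real B) ^ (n - S.card) := by
  classical
  have : {X : Fin n → α | (∀ i ∈ S, X i ∈ A) ∧ ∀ i ∉ S, X i ∉ B} =
      Set.pi univ fun i => if i ∈ S then A else Bᶜ := by
    ext X
    simp only [mem_ofPred_eq, Set.mem_pi, mem_univ, forall_const]
    constructor
    · rintro ⟨h1, h2⟩ i
      split_ifs with hi
      exacts [h1 i hi, h2 i hi]
    · exact fun h => ⟨fun i hi => by simpa [hi] using h i, fun i hi => by simpa [hi] using h i⟩
  rw [this, Measure.real, Measure.pi_pi, ENNReal.toReal_prod]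
  simp only [apply_ite μ, apply_ite ENNReal.toReal]
  rw [Finset.prod_ite, Finset.prod_const, Finset.prod_const, Finset.filter_mem_eq_inter,
    Finset.univ_inter, Finset.filter_not, Finset.filter_mem_eq_inter, Finset.univ_inter,
    Finset.card_univ_sdiff, Fintype.card_fin, ← probReal_compl_eq_one_sub hB]
  rfl

end Pool.Agent.Lib.MP_7073fe_pr
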