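import Pool.Agent.Lib.MP_7073fe_pr.Cap
import Pool.Agent.Lib.MP_7073fe_pr.GenPos

/-!
The block-beta distribution; nets with cap estimates at the scales `exp (-p)`.
-/

set_option autoImplicit false

open Set Module Metric MeasureTheory RealInnerProductSpace

namespace Pool.Agent.Lib.MP_7073fe_pr

variable {m : ℕ} {d : Fin m → ℕ} {β : Fin m → ℝ}

theorem block_prob (hd : ∀ i, 1 ≤ d i) (hβ : ∀ i, -1 < β i) :
    IsProbabilityMeasure (blockBeta d β) := by
  have := fun i => beta_prob (hd i) (hβ i)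
  rw [blockBeta]
  infer_instance

theorem block_box (hd : ∀ i, 1 ≤ d i) (hβ : ∀ i, -1 < β i) (A : ∀ i, Set (V (d i))) :
    (blockBeta d β).real (Set.pi univ A) = ∏ i, (betaBall (d i) (β i)).real (A i) := by
  have := fun i => beta_prob (hd i) (hβ i)
  rw [blockBeta, Measure.real, Measure.pi_pi, ENNReal.toReal_prod]
  rfl

theorem ae_inside (hd : ∀ i, 1 ≤ d i) (hβ : ∀ i, -1 < β i) (n : ℕ) :
    ∀ᵐ X ∂(Measure.pi fun _ : Fin n => blockBeta d β), ∀ r i, ‖X r i‖ < 1 := by
  have := fun i => beta_prob (hd i) (hβ i)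
  have := block_prob hd hβ
  refine ae_all_iff.2 fun r => ae_all_iff.2 fun i => ?_
  have h1 := Measure.pi_eval_preimage_null (fun i => betaBall (d i) (β i)) (beta_out (hd i))
  have h2 := Measure.pi_eval_preimage_null (fun _ : Fin n => blockBeta d β) (i := r) h1
  filter_upwards [measure_eq_zero_iff_ae_notMem.1 h2] with X hX
  simpa using hX

theorem vol_hyper {k : ℕ} (l : V k →ₗ[ℝ] ℝ) (c : ℝ) (hl : l ≠ 0) : volume {y | l y = c} = 0 := by
  rcases eq_empty_or_nonempty {y | l y = c} with h | ⟨y0, h⟩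
  · rw [h, measure_empty]
  refine measure_mono_null (fun y hy => ?_)
    (Measure.addHaar_affineSubspace volume (AffineSubspace.mk' y0 (LinearMap.ker l)) fun h => ?_)
  · simp [AffineSubspace.mem_mk', show l y = c from hy, show l y0 = c from h]
  · have := congrArg AffineSubspace.direction h
    rw [AffineSubspace.direction_mk', AffineSubspace.direction_top, LinearMap.ker_eq_top] at this
    exact hl this

theorem block_hyper (hd : ∀ i, 1 ≤ d i) (hβ : ∀ i, -1 < β i) (l : Space d →ₗ[ℝ] ℝ) (c : ℝ)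
    (hl : l ≠ 0) : blockBeta d β {y | l y = c} = 0 := by
  have := fun i => beta_prob (hd i) (hβ i)
  obtain ⟨i, hi⟩ : ∃ i, l ∘ₗ LinearMap.single ℝ (fun i => V (d i)) i ≠ 0 := by
    by_contra h
    push Not at h
    exact hl (LinearMap.pi_ext' fun i => by simpa using h i)
  refine pi_null _ i (isClosed_eq l.continuous_of_finiteDimensional continuous_const).measurableSet
    fun x => beta_ac (measure_mono_null (fun y hy => ?_)
      (vol_hyper _ (c - l (Function.update x i 0)) hi))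
  have h1 : Function.update x i y = Function.update x i 0 + Pi.single i y := by
    funext j
    by_cases h : j = i
    · subst h
      simp
    · simp [h]
  have h2 : l (Function.update x i y) = c := hy
  rw [h1, map_add] at h2
  simp [← h2]

theorem finrank_space (d : Fin m → ℕ) : finrank ℝ (Space d) = ∑ i, d i := by
  simp [finrank_pi_fintype]

theorem exists_repr (hd : ∀ i, 1 ≤ d i) (l : Space d →L[ℝ] ℝ) :
    ∃ (s : Fin m → ℝ) (u : Space d), (∀ i, 0 ≤ s i) ∧ (∀ i, ‖u i‖ = 1) ∧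
      ∀ x, l x = ∑ i, s i * ⟪u i, x i⟫ := by
  set w : Space d := fun i => (InnerProductSpace.toDual ℝ (V (d i))).symm
    (l.comp (ContinuousLinearMap.single ℝ (fun i => V (d i)) i)) with hw
  choose u h1 h2 using fun i => exists_dir (hd i) (w i)
  refine ⟨fun i => ‖w i‖, u, fun i => norm_nonneg _, h1, fun x => ?_⟩
  conv_lhs => rw [← Finset.univ_sum_single x, map_sum]
  refine Finset.sum_congr rfl fun i _ => ?_
  rw [← real_inner_smul_left, ← h2, hw]
  simp

theorem sqrt_exp (p : ℝ) (k : ℕ) :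
    √(Real.exp (-p)) ^ k * Real.exp ((k - 1) / 2 * p) = √(Real.exp (-p)) := by
  rw [← Real.exp_half, ← Real.exp_nat_mul, ← Real.exp_add]
  congr 1
  ring

theorem block_upper {k : ℕ} {b : ℝ} (hk : 1 ≤ k) (hb : -1 < b) {ε : ℝ} (hε : 0 < ε) (hε' : ε ≤ 1) :
    ∃ c C : ℝ, 0 < c ∧ 0 < C ∧ ∀ p : ℕ, ∃ U : Finset (V k),
      U.card ≤ C * Real.exp ((k - 1) / 2 * p) ∧
      (∀ w : V k, ‖w‖ = 1 → ∃ v ∈ U, ‖w - v‖ ^ 2 ≤ ε * Real.exp (-p)) ∧
      ∀ v ∈ U, ‖v‖ = 1 ∧
        c * Real.exp (-(ex k b * p)) ≤ (betaBall k b).real (cap v (ε * Real.exp (-p))) ∧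
        (betaBall k b).real (cap v (5 * Real.exp (-p))) ≤ C * Real.exp (-(ex k b * p)) := by
  obtain ⟨c1, C1, -, hC1, h1⟩ := exists_net hk
  obtain ⟨C2, hC2, h2⟩ := beta_cap_le hk hb
  obtain ⟨c3, hc3, h3⟩ := beta_cap_ge hk hb
  have := beta_prob hk hb
  have hs := Real.sqrt_pos.2 hε
  refine ⟨c3 * (ε / 3) ^ ex k b, max (C1 * √ε / √ε ^ k) (C2 * 5 ^ ex k b), by positivity,
    by positivity, fun p => ?_⟩
  have ht := Real.exp_pos (-p : ℝ)
  have ht' : Real.exp (-p : ℝ) ≤ 1 := Real.exp_le_one_iff.2 (by simp)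
  have hst := Real.sqrt_pos.2 ht
  have he : Real.exp (-p : ℝ) ^ ex k b = Real.exp (-(ex k b * p)) := by
    rw [← Real.exp_mul]; congr 1; ring
  obtain ⟨U, h4, -, h5, -, h6⟩ := h1 (√ε * √(Real.exp (-p))) (by positivity)
    (by nlinarith [Real.sqrt_le_one.2 hε', Real.sqrt_le_one.2 ht'])
  refine ⟨U, ?_, fun w hw => ?_, fun v hv => ⟨h4 v hv, ?_, ?_⟩⟩
  · refine le_trans ?_ (mul_le_mul_of_nonneg_right (le_max_left _ _) (by positivity))
    rw [div_mul_eq_mul_div, le_div_iff₀ (by positivity)]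
    refine le_of_mul_le_mul_right ?_ (pow_pos hst k)
    calc _ = U.card * (√ε * √(Real.exp (-p))) ^ k := by ring
      _ ≤ _ := h6
      _ = _ := by conv_lhs => rw [← sqrt_exp p k]
                  ring
  · obtain ⟨v, hv, h⟩ := h5 w hw
    refine ⟨v, hv, (pow_le_pow_left₀ (norm_nonneg _) h 2).trans (le_of_eq ?_)⟩
    rw [mul_pow, Real.sq_sqrt hε.le, Real.sq_sqrt ht.le]
  · have h7 := h3 v (h4 v hv) (ε / 3 * Real.exp (-p)) (by positivity) (by nlinarith)
    rw [Real.mul_rpow (by positivity) ht.le, he, ← mul_assoc,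
      show 3 * (ε / 3 * Real.exp (-p : ℝ)) = ε * Real.exp (-p) by ring] at h7
    exact h7.trans (measureReal_mono inter_subset_left)
  · refine (h2 v (h4 v hv) _ (by positivity)).trans ?_
    rw [Real.mul_rpow (by positivity) ht.le, he, ← mul_assoc]
    exact mul_le_mul_of_nonneg_right (le_max_right _ _) (by positivity)

theorem block_lower {k : ℕ} {b : ℝ} (hk : 1 ≤ k) (hb : -1 < b) {M : ℝ} (hM : 0 < M) :
    ∃ c C : ℝ, 0 < c ∧ 1 ≤ C ∧ ∀ p : ℕ, ∃ U : Finset (V k),
      c * Real.exp ((k - 1) / 2 * p) ≤ U.card ∧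
      (∀ u ∈ U, ∀ v ∈ U, ∀ y ∈ cap u (3 * Real.exp (-p)), y ∈ cap v (3 * Real.exp (-p)) → u = v) ∧
      ∀ v ∈ U, ‖v‖ = 1 ∧ c * Real.exp (-(ex k b * p)) ≤
          (betaBall k b).real (cap v (3 * Real.exp (-p)) ∩ piece k (Real.exp (-p))) ∧
        (betaBall k b).real (cap v (M * Real.exp (-p))) ≤ C * Real.exp (-(ex k b * p)) := by
  obtain ⟨c1, C1, hc1, -, h1⟩ := exists_net hk
  obtain ⟨C2, hC2, h2⟩ := beta_cap_le hk hb
  obtain ⟨c3, hc3, h3⟩ := beta_cap_ge hk hb
  refine ⟨min (c1 * 5 / 5 ^ k) c3, max (C2 * M ^ ex k b) 1, by positivity, le_max_right _ _,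
    fun p => ?_⟩
  have ht := Real.exp_pos (-p : ℝ)
  have ht' : Real.exp (-p : ℝ) ≤ 1 := Real.exp_le_one_iff.2 (by simp)
  have hst := Real.sqrt_pos.2 ht
  have he : Real.exp (-p : ℝ) ^ ex k b = Real.exp (-(ex k b * p)) := by
    rw [← Real.exp_mul]; congr 1; ring
  obtain ⟨U, h4, h5, -, h6, -⟩ := h1 (5 * √(Real.exp (-p))) (by positivity)
    (by nlinarith [Real.sqrt_le_one.2 ht'])
  refine ⟨U, ?_, fun u hu v hv y hy hy' => ?_, fun v hv => ⟨h4 v hv, ?_, ?_⟩⟩
  · refine le_trans (mul_le_mul_of_nonneg_right (min_le_left _ _) (by positivity)) ?_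
    rw [div_mul_eq_mul_div, div_le_iff₀ (by positivity)]
    refine le_of_mul_le_mul_right ?_ (pow_pos hst k)
    calc _ = c1 * (5 * √(Real.exp (-p))) := by conv_rhs => rw [← sqrt_exp p k]
                                               ring
      _ ≤ _ := h6
      _ = _ := by ring
  · by_contra huv
    nlinarith [cap_disj (h4 u hu) (h4 v hv) hy hy', h5 u hu v hv huv, Real.sq_sqrt ht.le]
  · exact (mul_le_mul_of_nonneg_right (min_le_right _ _) (by positivity)).trans
      (he ▸ h3 v (h4 v hv) _ ht ht')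
  · refine (h2 v (h4 v hv) _ (by positivity)).trans ?_
    rw [Real.mul_rpow (by positivity) ht.le, he, ← mul_assoc]
    exact mul_le_mul_of_nonneg_right (le_max_left _ _) (by positivity)

end Pool.Agent.Lib.MP_7073fe_pr
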