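import Pool.Agent.Lib.MP_7073fe_pr.Shell

/-!
Masses of caps under the beta distribution.
-/

set_option autoImplicit false

open Set Module Metric MeasureTheory RealInnerProductSpace

namespace Pool.Agent.Lib.MP_7073fe_pr

variable {k : ℕ} {β : ℝ}

theorem nontrivial_V (hk : 1 ≤ k) : Nontrivial (V k) := by
  obtain ⟨w, hw, -⟩ := exists_dir hk 0
  exact ⟨w, 0, fun h => by simp [h] at hw⟩

theorem raw_univ (hk : 1 ≤ k) (hβ : -1 < β) :
    rawBeta k β univ ≠ 0 ∧ rawBeta k β univ ≠ ⊤ := by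
  have := nontrivial_V hk
  constructor
  · have h1 := (vol_piece hk one_pos le_rfl).1
    have h2 := om_pos k
    refine (lt_of_lt_of_le (ENNReal.ofReal_pos.2 ?_) ((raw_piece (β := β) one_pos le_rfl).1.trans
      (measure_mono (subset_univ _)))).ne'
    exact mul_pos (by positivity) (lt_of_lt_of_le (by positivity) h1)
  · obtain ⟨C, -, hC⟩ := raw_shell hk hβ
    have : (univ : Set (V k)) ⊆ {y | 1 - 1 < ‖y‖} ∪ {0} := fun y _ => by
      by_cases h : y = 0 <;> simp [h]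
    refine ((measure_mono this).trans_lt ((measure_union_le _ _).trans_lt ?_)).ne
    rw [raw_ac (measure_singleton (0 : V k)), add_zero]
    exact (hC 1 one_pos le_rfl).trans_lt ENNReal.ofReal_lt_top

theorem beta_prob (hk : 1 ≤ k) (hβ : -1 < β) : IsProbabilityMeasure (betaBall k β) :=
  ⟨by simpa [betaBall] using ENNReal.inv_mul_cancel (raw_univ hk hβ).1 (raw_univ hk hβ).2⟩

theorem beta_real (A : Set (V k)) :
    (betaBall k β).real A = ((rawBeta k β).real univ)⁻¹ * (rawBeta k β).real A := by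
  simp [betaBall, Measure.real]

theorem beta_ac : betaBall k β ≪ volume := fun s hs => by simp [betaBall, raw_ac hs]

theorem beta_out (hk : 1 ≤ k) : betaBall k β {y | 1 ≤ ‖y‖} = 0 := by simp [betaBall, raw_out hk]

theorem beta_inv (T : V k ≃ₗᵢ[ℝ] V k) {A : Set (V k)} (hA : MeasurableSet A) :
    (betaBall k β).real (T ⁻¹' A) = (betaBall k β).real A := by
  rw [beta_real, beta_real (A := A), Measure.real, Measure.real, Measure.real,
    raw_apply (hA.preimage T.continuous.measurable), raw_apply hA,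
    ← T.measurePreserving.setLIntegral_comp_preimage (hA.inter measurableSet_closedBall)
      (by fun_prop)]
  simp [preimage_inter]

theorem beta_shell (hk : 1 ≤ k) (hβ : -1 < β) : ∃ C : ℝ, 0 < C ∧ ∀ t : ℝ, 0 < t →
    (betaBall k β).real {y | 1 - t < ‖y‖} ≤ C * t ^ (β + 1) := by
  obtain ⟨C, hC, h⟩ := raw_shell hk hβ
  have := beta_prob hk hβ
  refine ⟨max (((rawBeta k β).real univ)⁻¹ * C) 1, by positivity, fun t ht => ?_⟩
  by_cases ht' : t ≤ 1
  · rw [beta_real]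
    refine (mul_le_mul_of_nonneg_left (ENNReal.toReal_le_of_le_ofReal (by positivity)
      (h t ht ht')) (by positivity)).trans ?_
    rw [← mul_assoc]
    exact mul_le_mul_of_nonneg_right (le_max_left _ _) (by positivity)
  · exact measureReal_le_one.trans (one_le_mul_of_one_le_of_one_le (le_max_right _ _)
      (Real.one_le_rpow (by linarith) (by linarith)))

theorem beta_piece (hk : 1 ≤ k) (hβ : -1 < β) : ∃ c : ℝ, 0 < c ∧ ∀ t : ℝ, 0 < t → t ≤ 1 →
    c * t ^ (β + 1) ≤ (betaBall k β).real (piece k t) := by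
  have h0 := om_pos k
  have h1 : 0 < (rawBeta k β).real univ :=
    ENNReal.toReal_pos (raw_univ hk hβ).1 (raw_univ hk hβ).2
  refine ⟨((rawBeta k β).real univ)⁻¹ * (Real.exp (-|β|) * ((2 ^ k)⁻¹ * om k)), by positivity,
    fun t ht ht' => ?_⟩
  rw [beta_real, mul_assoc]
  refine mul_le_mul_of_nonneg_left (le_trans ?_ ((ENNReal.ofReal_le_iff_le_toReal
    (ne_top_of_le_ne_top (raw_univ hk hβ).2 (measure_mono (subset_univ _)))).1
    (raw_piece ht ht').1)) (by positivity)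
  rw [Real.rpow_add_one ht.ne']
  calc _ = Real.exp (-|β|) * t ^ β * ((2 ^ k)⁻¹ * om k * t) := by ring
    _ ≤ _ := mul_le_mul_of_nonneg_left (vol_piece hk ht ht').1 (by positivity)

/-- The cap of depth `t` in direction `u`. -/
def cap (u : V k) (t : ℝ) : Set (V k) := {y | ‖y‖ ≤ 1 ∧ 1 - ⟪u, y⟫ ≤ t}

theorem measurableSet_cap (u : V k) (t : ℝ) : MeasurableSet (cap u t) :=
  ((isClosed_le continuous_norm continuous_const).inter (isClosed_le
    (f := fun y : V k => 1 - ⟪u, y⟫) (by fun_prop) continuous_const)).measurableSet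

theorem depth_eq {u : V k} (hu : ‖u‖ = 1) (y : V k) :
    2 * (1 - ⟪u, y⟫) = ‖u - y‖ ^ 2 + (1 - ‖y‖ ^ 2) := by
  rw [norm_sub_sq_real, hu]
  ring

theorem sq_tri (x y z : V k) : ‖x - z‖ ^ 2 ≤ 2 * ‖x - y‖ ^ 2 + 2 * ‖z - y‖ ^ 2 := by
  have := norm_sub_le_norm_sub_add_norm_sub x y z
  rw [norm_sub_rev y z] at this
  nlinarith [norm_nonneg (x - z), sq_nonneg (‖x - y‖ - ‖z - y‖), norm_nonneg (x - y),
    norm_nonneg (z - y)]

theorem depth_change {u v y : V k} (hu : ‖u‖ = 1) (hv : ‖v‖ = 1) (hy : ‖y‖ ≤ 1) :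
    1 - ⟪v, y⟫ ≤ 2 * (1 - ⟪u, y⟫) + ‖u - v‖ ^ 2 := by
  have h1 := sq_tri v u y
  rw [norm_sub_rev v u, norm_sub_rev y u] at h1
  nlinarith [depth_eq hu y, depth_eq hv y, norm_nonneg y]

theorem cap_disj {u v y : V k} (hu : ‖u‖ = 1) (hv : ‖v‖ = 1) {t : ℝ} (h1 : y ∈ cap u t)
    (h2 : y ∈ cap v t) : ‖u - v‖ ^ 2 ≤ 8 * t := by
  nlinarith [depth_eq hu y, depth_eq hv y, norm_nonneg y, sq_tri u y v, h1.1, h1.2, h2.2]

theorem exists_iso {u v : V k} (hu : ‖u‖ = 1) (hv : ‖v‖ = 1) : ∃ T : V k ≃ₗᵢ[ℝ] V k,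
    (∀ t, T ⁻¹' cap v t = cap u t) ∧ ∀ t, T ⁻¹' piece k t = piece k t := by
  obtain ⟨T, hT⟩ : ∃ T : V k ≃ₗᵢ[ℝ] V k, T u = v := ⟨_, Submodule.reflection_sub (hu.trans hv.symm)⟩
  refine ⟨T, fun t => ?_, fun t => ?_⟩ <;> ext y
  · simp [cap, ← hT]
  · simp [mem_piece]

/-- The exponent of the mass of a cap. -/
noncomputable def ex (k : ℕ) (β : ℝ) : ℝ := (k + 1) / 2 + β

theorem ex_pos (hk : 1 ≤ k) (hβ : -1 < β) : 0 < ex k β := by
  have : (1 : ℝ) ≤ k := by exact_mod_cast hk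
  rw [ex]
  linarith

theorem ex_mul {t : ℝ} (ht : 0 < t) : t ^ ex k β * √t = t ^ (β + 1) * √t ^ k := by
  rw [Real.sqrt_eq_rpow, ← Real.rpow_natCast, ← Real.rpow_mul ht.le, ← Real.rpow_add ht,
    ← Real.rpow_add ht, ex]
  congr 1
  ring

theorem beta_cap_le (hk : 1 ≤ k) (hβ : -1 < β) : ∃ C : ℝ, 0 < C ∧ ∀ u : V k, ‖u‖ = 1 →
    ∀ t : ℝ, 0 < t → (betaBall k β).real (cap u t) ≤ C * t ^ ex k β := by
  obtain ⟨C, hC, h⟩ := beta_shell hk hβ
  obtain ⟨c, C', hc, -, hnet⟩ := exists_net hk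
  have := beta_prob hk hβ
  refine ⟨max (C * 2 ^ (β + 1) * 3 ^ k / (c * 3)) 1, by positivity, fun u hu t ht => ?_⟩
  by_cases ht' : t ≤ 1
  swap
  · exact measureReal_le_one.trans (one_le_mul_of_one_le_of_one_le (le_max_right _ _)
      (Real.one_le_rpow (by linarith) (ex_pos hk hβ).le))
  have hs := Real.sqrt_pos.2 ht
  obtain ⟨U, h1, h2, -, h3, -⟩ := hnet (3 * √t) (by positivity)
    (by linarith [Real.sqrt_le_one.2 ht'])
  have hd : (U : Set (V k)).PairwiseDisjoint fun v => cap v t := by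
    intro v hv w hw hvw
    refine disjoint_left.2 fun y hy hy' => ?_
    nlinarith [cap_disj (h1 v hv) (h1 w hw) hy hy', h2 v hv w hw hvw, Real.sq_sqrt ht.le]
  have hsum := measureReal_biUnion_finset (μ := betaBall k β) hd fun v _ => measurableSet_cap v t
  rw [Finset.sum_congr rfl (g := fun _ => (betaBall k β).real (cap u t)) fun v hv => by
    obtain ⟨T, hT, -⟩ := exists_iso hu (h1 v hv)
    rw [← hT, beta_inv T (measurableSet_cap v t)], Finset.sum_const, nsmul_eq_mul] at hsum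
  have hsub : (⋃ v ∈ U, cap v t) ⊆ {y | 1 - 2 * t < ‖y‖} := by
    intro y hy
    simp only [mem_iUnion] at hy
    obtain ⟨v, hv, hy⟩ := hy
    have := real_inner_le_norm v y
    rw [h1 v hv, one_mul] at this
    show 1 - 2 * t < ‖y‖
    linarith [hy.2]
  have h4 := (hsum.symm.le.trans (measureReal_mono hsub)).trans (h (2 * t) (by positivity))
  refine le_trans ?_ (mul_le_mul_of_nonneg_right (le_max_left _ _) (by positivity))
  rw [div_mul_eq_mul_div, le_div_iff₀ (by positivity)]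
  refine le_of_mul_le_mul_right ?_ hs
  have h5 : 0 ≤ (betaBall k β).real (cap u t) := measureReal_nonneg
  calc _ = (betaBall k β).real (cap u t) * (c * (3 * √t)) := by ring
    _ ≤ (betaBall k β).real (cap u t) * (U.card * (3 * √t) ^ k) := by gcongr
    _ = U.card * (betaBall k β).real (cap u t) * (3 * √t) ^ k := by ring
    _ ≤ C * (2 * t) ^ (β + 1) * (3 * √t) ^ k := by gcongr
    _ = C * 2 ^ (β + 1) * 3 ^ k * (t ^ (β + 1) * √t ^ k) := by
        rw [Real.mul_rpow (by norm_num) ht.le, mul_pow]; ring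
    _ = _ := by rw [← ex_mul ht]; ring

theorem beta_cap_ge (hk : 1 ≤ k) (hβ : -1 < β) : ∃ c : ℝ, 0 < c ∧ ∀ u : V k, ‖u‖ = 1 →
    ∀ t : ℝ, 0 < t → t ≤ 1 →
      c * t ^ ex k β ≤ (betaBall k β).real (cap u (3 * t) ∩ piece k t) := by
  obtain ⟨c, hc, h⟩ := beta_piece hk hβ
  obtain ⟨c', C, -, hC, hnet⟩ := exists_net hk
  have := beta_prob hk hβ
  refine ⟨c / C, by positivity, fun u hu t ht ht' => ?_⟩
  have hs := Real.sqrt_pos.2 ht
  obtain ⟨U, h1, -, h2, -, h3⟩ := hnet √t hs (by linarith [Real.sqrt_le_one.2 ht'])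
  have hsub : piece k t ⊆ ⋃ v ∈ U, cap v (3 * t) ∩ piece k t := by
    intro y hy
    obtain ⟨w, hw, hyw⟩ := exists_dir hk y
    obtain ⟨v, hv, hwv⟩ := h2 w hw
    have hy' := mem_piece.1 hy
    have h4 : ⟪w, y⟫ = ‖y‖ := by
      conv_lhs => rw [hyw, real_inner_smul_right, real_inner_self_eq_norm_sq, hw]
      ring
    have h5 := depth_change hw (h1 v hv) (by linarith : ‖y‖ ≤ 1)
    simp only [mem_iUnion]
    refine ⟨v, hv, ⟨by linarith, ?_⟩, hy⟩
    nlinarith [Real.sq_sqrt ht.le, norm_nonneg (w - v)]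
  have h4 := ((h t ht ht').trans (measureReal_mono hsub (measure_ne_top _ _))).trans
    (measureReal_biUnion_finset_le _ _)
  rw [Finset.sum_congr rfl (g := fun _ => (betaBall k β).real (cap u (3 * t) ∩ piece k t))
    fun v hv => by
      obtain ⟨T, hT, hT'⟩ := exists_iso hu (h1 v hv)
      rw [← beta_inv T ((measurableSet_cap v _).inter (measurableSet_piece t)), preimage_inter,
        hT, hT'], Finset.sum_const, nsmul_eq_mul] at h4
  rw [div_mul_eq_mul_div, div_le_iff₀ hC]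
  refine le_of_mul_le_mul_right ?_ hs
  have h5 : 0 ≤ (betaBall k β).real (cap u (3 * t) ∩ piece k t) := measureReal_nonneg
  calc _ = c * t ^ (β + 1) * √t ^ k := by rw [mul_assoc, ex_mul ht]; ring
    _ ≤ U.card * (betaBall k β).real (cap u (3 * t) ∩ piece k t) * √t ^ k := by gcongr
    _ = (betaBall k β).real (cap u (3 * t) ∩ piece k t) * (U.card * √t ^ k) := by ring
    _ ≤ (betaBall k β).real (cap u (3 * t) ∩ piece k t) * (C * √t) := by gcongr
    _ = _ := by ring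

end Pool.Agent.Lib.MP_7073fe_pr
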