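import Mathlib

/-!
Block-beta random polytopes: the distributions and the expected face numbers.
-/

set_option autoImplicit false

open MeasureTheory

namespace Pool.Agent.Lib.MP_7073fe_pr

/-- The measure with density `(1 - |y|^2)^β` on the closed unit ball of `ℝ^k`. -/
noncomputable def rawBeta (k : ℕ) (β : ℝ) : Measure (EuclideanSpace ℝ (Fin k)) :=
  (volume.restrict (Metric.closedBall 0 1)).withDensity
    fun y => ENNReal.ofReal ((1 - ‖y‖ ^ 2) ^ β)

/-- The beta distribution on the unit ball of `ℝ^k`: `rawBeta` divided by its total mass. -/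
noncomputable def betaBall (k : ℕ) (β : ℝ) : Measure (EuclideanSpace ℝ (Fin k)) :=
  (rawBeta k β Set.univ)⁻¹ • rawBeta k β

/-- The space `ℝ^(d 1) × ... × ℝ^(d m)`. -/
abbrev Space {m : ℕ} (d : Fin m → ℕ) : Type := (i : Fin m) → EuclideanSpace ℝ (Fin (d i))

/-- The block-beta distribution: independent blocks, block `i` beta distributed. -/
noncomputable def blockBeta {m : ℕ} (d : Fin m → ℕ) (β : Fin m → ℝ) : Measure (Space d) :=
  Measure.pi fun i => betaBall (d i) (β i)

/-- The number of nonempty faces of dimension `j` of a convex set `P`. -/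
noncomputable def faceCount {E : Type} [NormedAddCommGroup E] [NormedSpace ℝ E] (j : ℕ)
    (P : Set E) : ℕ :=
  {F : Set E | F.Nonempty ∧ IsExposed ℝ P F ∧ Module.finrank ℝ (vectorSpan ℝ F) = j}.ncard

/-- The expected number of `j`-faces of the convex hull of `n` independent block-beta points. -/
noncomputable def expFaces {m : ℕ} (d : Fin m → ℕ) (β : Fin m → ℝ) (j n : ℕ) : ℝ :=
  ∫ X : Fin n → Space d, (faceCount j (convexHull ℝ (Set.range X)) : ℝ)
    ∂(Measure.pi fun _ => blockBeta d β)

end Pool.Agent.Lib.MP_7073fe_pr
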