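import Pool.Agent.Lib.MP_7073fe_pr.Defs

/-!
Faces of the convex hull of points in general position.
-/

set_option autoImplicit false

open Set Module Filter Topology

namespace Pool.Agent.Lib.MP_7073fe_pr

variable {E : Type} [NormedAddCommGroup E] [NormedSpace ℝ E] {n : ℕ}

/-- The points with index in `S` are exactly those on a supporting hyperplane. -/
def Facial (X : Fin n → E) (S : Finset (Fin n)) : Prop :=
  ∃ (l : E →L[ℝ] ℝ) (c : ℝ), (∀ i ∈ S, l (X i) = c) ∧ ∀ i ∉ S, l (X i) < c

/-- General position. -/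
def GP (X : Fin n → E) : Prop :=
  ∀ S : Finset (Fin n), S.card ≤ finrank ℝ E + 1 →
    LinearIndepOn ℝ (fun i => ((1 : ℝ), X i)) (S : Set (Fin n))

theorem hull_eq {s : Set E} {l : E →L[ℝ] ℝ} {c : ℝ} (h : ∀ x ∈ s, l x = c) :
    ∀ x ∈ convexHull ℝ s, l x = c := by
  refine fun x hx => convexHull_min (t := {x | l x = c}) h ?_ hx
  intro x hx y hy a b _ _ hab
  simp only [mem_ofPred_eq, map_add, map_smul, smul_eq_mul] at hx hy ⊢
  rw [hx, hy, ← add_mul, hab, one_mul]

theorem hull_le {s : Set E} {l : E →L[ℝ] ℝ} {c : ℝ} (h : ∀ x ∈ s, l x ≤ c) :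
    ∀ x ∈ convexHull ℝ s, l x ≤ c := by
  refine fun x hx => convexHull_min (t := {x | l x ≤ c}) h ?_ hx
  intro x hx y hy a b ha hb hab
  simp only [mem_ofPred_eq, map_add, map_smul, smul_eq_mul] at hx hy ⊢
  have hc : c = a * c + b * c := by rw [← add_mul, hab, one_mul]
  linarith [mul_le_mul_of_nonneg_left hx ha, mul_le_mul_of_nonneg_left hy hb]

theorem face_eq {X : Fin n → E} {S : Finset (Fin n)} (hS : S.Nonempty) {l : E →L[ℝ] ℝ} {c : ℝ}
    (h1 : ∀ i ∈ S, l (X i) = c) (h2 : ∀ i ∉ S, l (X i) < c) :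
    {x ∈ convexHull ℝ (range X) | ∀ y ∈ convexHull ℝ (range X), l y ≤ l x} =
      convexHull ℝ (X '' S) := by
  have hle : ∀ x ∈ convexHull ℝ (range X), l x ≤ c := by
    refine hull_le ?_
    rintro _ ⟨i, rfl⟩
    by_cases hi : i ∈ S
    · exact (h1 i hi).le
    · exact (h2 i hi).le
  have heq : ∀ x ∈ convexHull ℝ (X '' S), l x = c := by
    refine hull_eq ?_
    rintro _ ⟨i, hi, rfl⟩
    exact h1 i hi
  ext x
  constructor
  · rintro ⟨hx, hm⟩
    obtain ⟨i, hi⟩ := hS
    have hc : c ≤ l x := h1 i hi ▸ hm _ (subset_convexHull ℝ _ ⟨i, rfl⟩)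
    have key : convexHull ℝ (range X) ⊆ {x | l x < c ∨ x ∈ convexHull ℝ (X '' S)} := by
      refine convexHull_min ?_ ?_
      · rintro _ ⟨i, rfl⟩
        by_cases hi : i ∈ S
        · exact Or.inr (subset_convexHull ℝ _ ⟨i, hi, rfl⟩)
        · exact Or.inl (h2 i hi)
      · intro x hx y hy a b ha hb hab
        have hx' : l x ≤ c := hx.elim le_of_lt fun h => (heq x h).le
        have hy' : l y ≤ c := hy.elim le_of_lt fun h => (heq y h).le
        have hv : l (a • x + b • y) = a * l x + b * l y := by simp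
        rcases ha.eq_or_lt with rfl | ha'
        · obtain rfl : b = 1 := by linarith
          simpa using hy
        rcases hb.eq_or_lt with rfl | hb'
        · obtain rfl : a = 1 := by linarith
          simpa using hx
        have hc : c = a * c + b * c := by rw [← add_mul, hab, one_mul]
        rcases hx with hx | hx
        · left
          rw [hv, hc]
          nlinarith [mul_lt_mul_of_pos_left hx ha', mul_le_mul_of_nonneg_left hy' hb]
        rcases hy with hy | hy
        · left
          rw [hv, hc]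
          nlinarith [mul_lt_mul_of_pos_left hy hb', mul_le_mul_of_nonneg_left hx' ha]
        · exact Or.inr (convex_convexHull ℝ _ hx hy ha hb hab)
    exact (key hx).resolve_left (not_lt.2 hc)
  · intro hx
    exact ⟨convexHull_mono (image_subset_range _ _) hx, fun y hy => (heq x hx).symm ▸ hle y hy⟩

theorem GP.finrank_span {X : Fin n → E} (h : GP X) {S : Finset (Fin n)} {k : ℕ}
    (hk : S.card = k + 1) (hd : k ≤ finrank ℝ E) : finrank ℝ (vectorSpan ℝ (X '' S)) = k := by
  have h1 := h S (by omega)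
  have h2 : AffineIndependent ℝ (fun i : S => X i) := by
    rw [affineIndependent_iff]
    intro s w hw hs
    refine linearIndependent_iff'.1 h1 s w ?_
    ext
    · simpa [Prod.fst_sum] using hw
    · simpa [Prod.snd_sum] using hs
  have h3 := h2.finrank_vectorSpan (n := k) (by simpa using hk)
  have : range (fun i : S => X i) = X '' S := by
    ext x
    simp
  rwa [this] at h3

theorem vectorSpan_hull (s : Set E) : vectorSpan ℝ (convexHull ℝ s) = vectorSpan ℝ s := by
  rw [← direction_affineSpan, affineSpan_convexHull, direction_affineSpan]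

open Classical in
/-- The number of facial index sets with `k` elements. -/
noncomputable def cnt (X : Fin n → E) (k : ℕ) : ℕ :=
  ((Finset.univ.powersetCard k).filter (Facial X)).card

theorem faceCount_eq [FiniteDimensional ℝ E] {X : Fin n → E} (h : GP X) {j : ℕ}
    (hj : j + 1 ≤ finrank ℝ E) : faceCount j (convexHull ℝ (range X)) = cnt X (j + 1) := by
  classical
  rw [faceCount, cnt, ← ncard_coe_finset,
    ← InjOn.ncard_image (f := fun S : Finset (Fin n) => convexHull ℝ (X '' S))]
  · congr 1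
    ext F
    simp only [mem_ofPred_eq, Finset.coe_filter, Finset.mem_powersetCard, Finset.subset_univ,
      true_and, mem_image]
    constructor
    · rintro ⟨hne, hex, hdim⟩
      obtain ⟨l, hl⟩ := hex hne
      have hn : (Finset.univ : Finset (Fin n)).Nonempty := by
        obtain ⟨x, hx⟩ := hne
        rw [hl] at hx
        obtain ⟨_, i, _⟩ := convexHull_nonempty_iff.1 ⟨x, hx.1⟩
        exact ⟨i, Finset.mem_univ _⟩
      obtain ⟨i0, -, hi0⟩ := Finset.exists_max_image Finset.univ (fun i => l (X i)) hn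
      set S := Finset.univ.filter fun i => l (X i) = l (X i0) with hS
      have h1 : ∀ i ∈ S, l (X i) = l (X i0) := fun i hi => (Finset.mem_filter.1 hi).2
      have h2 : ∀ i ∉ S, l (X i) < l (X i0) := fun i hi =>
        lt_of_le_of_ne (hi0 i (Finset.mem_univ _)) fun h => hi (by simp [hS, h])
      have hne' : S.Nonempty := ⟨i0, by simp [hS]⟩
      have hF := hl.trans (face_eq hne' h1 h2)
      refine ⟨S, ⟨?_, l, _, h1, h2⟩, hF.symm⟩
      rw [hF, vectorSpan_hull] at hdim
      by_cases hc : S.card ≤ finrank ℝ E + 1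
      · obtain ⟨k, hk⟩ : ∃ k, S.card = k + 1 := ⟨S.card - 1, by have := hne'.card_pos; omega⟩
        rw [h.finrank_span hk (by omega)] at hdim
        omega
      · obtain ⟨T, hT, hT'⟩ := Finset.exists_subset_card_eq (s := S) (n := finrank ℝ E + 1)
          (by omega)
        have := Submodule.finrank_mono (vectorSpan_mono ℝ (image_mono (f := X)
          (Finset.coe_subset.2 hT)))
        rw [h.finrank_span hT' le_rfl] at this
        omega
    · rintro ⟨S, ⟨hc, l, c, h1, h2⟩, rfl⟩
      have hne : S.Nonempty := Finset.card_pos.1 (by omega)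
      refine ⟨convexHull_nonempty_iff.2 (hne.to_set.image _),
        fun _ => ⟨l, (face_eq hne h1 h2).symm⟩, ?_⟩
      rw [vectorSpan_hull, h.finrank_span hc (by omega)]
  · have key : ∀ S T : Finset (Fin n), Facial X S →
        convexHull ℝ (X '' S) = convexHull ℝ (X '' T) → T ⊆ S := by
      rintro S T ⟨l, c, h1, h2⟩ he i hi
      by_contra hn
      refine (h2 i hn).ne (hull_eq (s := X '' S) ?_ _ ?_)
      · rintro _ ⟨i, hi, rfl⟩
        exact h1 i hi
      · rw [he]
        exact subset_convexHull ℝ _ ⟨i, hi, rfl⟩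
    intro S hS T hT he
    exact Finset.Subset.antisymm (key T S (Finset.mem_filter.1 hT).2 he.symm)
      (key S T (Finset.mem_filter.1 hS).2 he)

theorem GP.exists_affine [FiniteDimensional ℝ E] {X : Fin n → E} (h : GP X) {T : Finset (Fin n)}
    (hT : T.card ≤ finrank ℝ E + 1) (y : Fin n → ℝ) :
    ∃ (l : E →L[ℝ] ℝ) (c : ℝ), ∀ i ∈ T, c - l (X i) = y i := by
  have h1 := h T hT
  obtain ⟨φ, hφ⟩ := LinearMap.exists_extend
    ((Finsupp.linearCombination ℝ fun i : (T : Set (Fin n)) => y i) ∘ₗ LinearIndependent.repr h1)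
  refine ⟨-LinearMap.toContinuousLinearMap (φ ∘ₗ LinearMap.inr ℝ ℝ E), φ (1, 0), fun i hi => ?_⟩
  have h2 := LinearMap.congr_fun hφ
    ⟨((1 : ℝ), X i), Submodule.subset_span ⟨⟨i, hi⟩, rfl⟩⟩
  rw [LinearMap.comp_apply, LinearMap.comp_apply,
    LinearIndependent.repr_eq_single h1 ⟨i, hi⟩ _ rfl] at h2
  have h3 : φ (1, X i) = φ (1, 0) + φ (0, X i) := by rw [← map_add]; simp
  simp at h2 ⊢
  rw [← h3, h2]

theorem GP.card_le [FiniteDimensional ℝ E] {X : Fin n → E} (h : GP X) {S : Finset (Fin n)}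
    (hS : Facial X S) {q : Fin n} (hq : q ∉ S) : S.card ≤ finrank ℝ E := by
  by_contra hc
  obtain ⟨T, hT, hT'⟩ := Finset.exists_subset_card_eq (s := S) (n := finrank ℝ E + 1) (by omega)
  obtain ⟨l, c, h1, h2⟩ := hS
  have htop := Submodule.eq_top_of_finrank_eq (h.finrank_span hT' le_rfl)
  have hker : vectorSpan ℝ (X '' T) ≤ LinearMap.ker l.toLinearMap := by
    rw [vectorSpan_def, Submodule.span_le]
    rintro _ ⟨_, ⟨i, hi, rfl⟩, _, ⟨k, hk, rfl⟩, rfl⟩
    simp [h1 i (hT hi), h1 k (hT hk)]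
  have h0 : ∀ x, l x = 0 := fun x => hker (htop ▸ Submodule.mem_top)
  obtain ⟨i, hi⟩ : T.Nonempty := Finset.card_pos.1 (by omega)
  have := h2 q hq
  rw [← h1 i (hT hi), h0, h0] at this
  exact lt_irrefl _ this

theorem GP.facial_sub [FiniteDimensional ℝ E] {X : Fin n → E} (h : GP X) {S T : Finset (Fin n)}
    (hS : Facial X S) (hc : S.card ≤ finrank ℝ E + 1) (hT : T ⊆ S) : Facial X T := by
  classical
  obtain ⟨l, c, h1, h2⟩ := hS
  obtain ⟨l', c', h3⟩ := h.exists_affine hc fun i => if i ∈ T then 0 else 1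
  have hev : ∀ᶠ ε : ℝ in 𝓝[>] 0, ∀ i, i ∉ S → 0 < c - l (X i) + ε * (c' - l' (X i)) := by
    refine eventually_all.2 fun i => ?_
    by_cases hi : i ∈ S
    · simp [hi]
    · simp only [hi, not_false_eq_true, forall_const]
      refine nhdsWithin_le_nhds (ContinuousAt.eventually_lt continuousAt_const (by fun_prop) ?_)
      simpa using h2 i hi
  obtain ⟨ε, hε, hε'⟩ := (hev.and self_mem_nhdsWithin).exists
  have hε' : 0 < ε := hε'
  refine ⟨l + ε • l', c + ε * c', fun i hi => ?_, fun i hi => ?_⟩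
  · have := h3 i (hT hi)
    simp only [hi, if_true] at this
    simp [h1 i (hT hi), show l' (X i) = c' by linarith]
  · simp only [add_apply, smul_apply, smul_eq_mul]
    by_cases hi' : i ∈ S
    · have := h3 i hi'
      simp only [hi, if_false] at this
      rw [h1 i hi', show l' (X i) = c' - 1 by linarith]
      linarith
    · linarith [hε i hi']

theorem GP.facial_step [FiniteDimensional ℝ E] {X : Fin n → E} (h : GP X)
    (hn : finrank ℝ E + 1 ≤ n) {S : Finset (Fin n)} (hS : Facial X S)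
    (hc : S.card + 1 ≤ finrank ℝ E) : ∃ T, S ⊆ T ∧ T.card = S.card + 1 ∧ Facial X T := by
  classical
  obtain ⟨l, c, h1, h2⟩ := hS
  obtain ⟨p, hp, q, hq, hpq⟩ : ∃ p ∈ Sᶜ, ∃ q ∈ Sᶜ, p ≠ q :=
    Finset.one_lt_card.1 (by rw [Finset.card_compl, Fintype.card_fin]; omega)
  rw [Finset.mem_compl] at hp hq
  obtain ⟨l', c', h3⟩ := h.exists_affine (T := insert p (insert q S))
    ((Finset.card_insert_le _ _).trans (by have := Finset.card_insert_le q S; omega))
    fun i => if i = p then c - l (X p) else 0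
  obtain ⟨r, hr, hr'⟩ := Finset.exists_max_image Sᶜ (fun i => (c' - l' (X i)) / (c - l (X i)))
    ⟨p, Finset.mem_compl.2 hp⟩
  rw [Finset.mem_compl] at hr
  set τ := (c' - l' (X r)) / (c - l (X r)) with hτ
  have hτ1 : 1 ≤ τ := by
    have := hr' p (Finset.mem_compl.2 hp)
    rwa [h3 p (by simp), if_pos rfl, div_self (sub_pos.2 (h2 p hp)).ne'] at this
  have hz : ∀ i ∈ S, l' (X i) = c' := fun i hi => by
    have := h3 i (by simp [hi])
    rw [if_neg (fun h : i = p => hp (h ▸ hi))] at this
    linarith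
  have hv : ∀ x, (τ • l - l') x = τ * l x - l' x := fun x => by simp
  have hle : ∀ i, (τ • l - l') (X i) ≤ τ * c - c' := fun i => by
    rw [hv]
    by_cases hi : i ∈ S
    · rw [h1 i hi, hz i hi]
    · have := (div_le_iff₀ (sub_pos.2 (h2 i hi))).1 (hr' i (Finset.mem_compl.2 hi))
      linarith
  set U := Finset.univ.filter fun i => (τ • l - l') (X i) = τ * c - c' with hU
  have hfac : Facial X U := ⟨τ • l - l', τ * c - c', fun i hi => (Finset.mem_filter.1 hi).2,
    fun i hi => lt_of_le_of_ne (hle i) fun h => hi (Finset.mem_filter.2 ⟨Finset.mem_univ _, h⟩)⟩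
  have hqU : q ∉ U := fun hq' => by
    have h4 := (Finset.mem_filter.1 hq').2
    have h5 := h3 q (by simp)
    rw [if_neg hpq.symm] at h5
    rw [hv] at h4
    nlinarith [h2 q hq]
  refine ⟨insert r S, Finset.subset_insert _ _, Finset.card_insert_of_notMem hr,
    h.facial_sub hfac ((h.card_le hfac hqU).trans (by omega)) fun i hi => ?_⟩
  refine Finset.mem_filter.2 ⟨Finset.mem_univ _, ?_⟩
  rw [hv]
  rcases Finset.mem_insert.1 hi with rfl | hi
  · have := div_mul_cancel₀ (c' - l' (X i)) (sub_pos.2 (h2 i hr)).ne'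
    rw [← hτ] at this
    linarith
  · rw [h1 i hi, hz i hi]

theorem GP.cnt_le [FiniteDimensional ℝ E] {X : Fin n → E} (h : GP X)
    (hn : finrank ℝ E + 1 ≤ n) {j : ℕ} (hj : j + 1 ≤ finrank ℝ E) :
    cnt X 1 ≤ (j + 1) * cnt X (j + 1) := by
  classical
  have key : ∀ S, S.card = 1 → Facial X S → ∀ k, k + 1 ≤ finrank ℝ E →
      ∃ T, S ⊆ T ∧ T.card = k + 1 ∧ Facial X T := by
    intro S h1 h2 k
    induction k with
    | zero => exact fun _ => ⟨S, subset_rfl, h1, h2⟩
    | succ k ih =>
      intro hk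
      obtain ⟨T, h3, h4, h5⟩ := ih (by omega)
      obtain ⟨T', h6, h7, h8⟩ := h.facial_step hn h5 (by omega)
      exact ⟨T', h3.trans h6, by omega, h8⟩
  rw [cnt, cnt, mul_comm]
  refine le_trans (Finset.card_le_card (t := ((Finset.univ.powersetCard (j + 1)).filter
    (Facial X)).biUnion fun T => T.powersetCard 1) fun S hS => ?_)
    (Finset.card_biUnion_le_card_mul _ _ _ fun T hT => ?_)
  · simp only [Finset.mem_filter, Finset.mem_powersetCard, Finset.subset_univ, true_and,
      Finset.mem_biUnion] at hS ⊢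
    obtain ⟨T, h3, h4, h5⟩ := key S hS.1 hS.2 j hj
    exact ⟨T, ⟨h4, h5⟩, h3, hS.1⟩
  · rw [Finset.card_powersetCard, Nat.choose_one_right,
      (Finset.mem_powersetCard.1 (Finset.mem_filter.1 hT).1).2]

end Pool.Agent.Lib.MP_7073fe_pr
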