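import Pool.Agent.Lib.MP_7073fe_pr.Upper

/-!
Lower bound for the probability that a given point is a vertex.
-/

set_option autoImplicit false

open Set Module Metric MeasureTheory RealInnerProductSpace

namespace Pool.Agent.Lib.MP_7073fe_pr

variable {m : ℕ} {d : Fin m → ℕ} {β : Fin m → ℝ} {n : ℕ}

theorem exists_lattice {a : Fin m → ℝ} (δ : Fin m → ℝ) (ha : ∀ i, 0 < a i) {i0 : Fin m}
    (h0 : δ i0 = 0) : ∃ c : ℝ, 0 < c ∧ ∀ L : ℝ, 0 ≤ L → ∃ P : Finset (Fin m → ℕ),
      c * L ^ ((Finset.univ.filter fun i => δ i = 0).card - 1) ≤ P.card ∧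
      ∀ p ∈ P, L ≤ ∑ i, a i * p i ∧ ∑ i, a i * p i ≤ L + a i0 ∧ ∑ i, δ i * p i = 0 := by
  classical
  have hm : (0 : ℝ) < m := by exact_mod_cast i0.pos
  set J := (Finset.univ.filter fun i => δ i = 0).erase i0 with hJ
  refine ⟨∏ i ∈ J, (m * a i)⁻¹, Finset.prod_pos fun i _ => inv_pos.2 (mul_pos hm (ha i)),
    fun L hL => ?_⟩
  set Q := Fintype.piFinset fun i =>
    if i ∈ J then Finset.range (⌊(m * a i)⁻¹ * L⌋₊ + 1) else {0} with hQ
  have hQ0 : ∀ q ∈ Q, ∀ i ∉ J, q i = 0 := fun q hq i hi => by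
    simpa [hi] using Fintype.mem_piFinset.1 hq i
  have hi0 : i0 ∉ J := Finset.notMem_erase _ _
  have hQ1 : ∀ q ∈ Q, ∑ i, a i * q i ≤ L := fun q hq => by
    refine (Finset.sum_le_card_nsmul _ _ (L / m) fun i _ => ?_).trans
      (by rw [Finset.card_univ, Fintype.card_fin, nsmul_eq_mul, mul_div_cancel₀ _ hm.ne'])
    by_cases hi : i ∈ J
    · have h1 : q i ≤ ⌊(m * a i)⁻¹ * L⌋₊ := by
        simpa [hi, Nat.lt_succ_iff] using Fintype.mem_piFinset.1 hq i
      have h2 := (Nat.le_floor_iff (by have := ha i; positivity)).1 h1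
      refine (mul_le_mul_of_nonneg_left h2 (ha i).le).trans (le_of_eq ?_)
      have := (ha i).ne'
      field_simp
    · rw [hQ0 q hq i hi, Nat.cast_zero, mul_zero]
      positivity
  refine ⟨Q.image fun q => Function.update q i0 ⌈(L - ∑ i, a i * q i) / a i0⌉₊, ?_, ?_⟩
  · rw [Finset.card_image_of_injOn fun q hq q' hq' h => funext fun i => by
      by_cases hi : i = i0
      · rw [hi, hQ0 q hq _ hi0, hQ0 q' hq' _ hi0]
      · simpa [hi] using congrFun h i, Fintype.card_piFinset, Nat.cast_prod,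
      ← Finset.card_erase_of_mem (a := i0) (by simpa using h0), ← hJ, ← Finset.prod_const,
      ← Finset.prod_mul_distrib, ← Finset.prod_subset (Finset.subset_univ J)
        fun i _ hi => by simp [hi]]
    refine Finset.prod_le_prod (fun i _ => by have := ha i; positivity) fun i hi => ?_
    simpa [hi] using (Nat.lt_floor_add_one ((m * a i)⁻¹ * L)).le
  · intro p hp
    obtain ⟨q, hq, rfl⟩ := Finset.mem_image.1 hp
    have key : ∀ (b : Fin m → ℝ) (k : ℕ),
        ∑ i, b i * (Function.update q i0 k i : ℕ) = b i0 * k + ∑ i, b i * q i := fun b k => by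
      rw [← Finset.add_sum_erase _ _ (Finset.mem_univ i0),
        ← Finset.add_sum_erase _ (fun i => b i * q i) (Finset.mem_univ i0), hQ0 q hq _ hi0,
        Function.update_self, Nat.cast_zero, mul_zero, zero_add]
      congr 1
      exact Finset.sum_congr rfl fun i hi => by
        rw [Function.update_of_ne (Finset.ne_of_mem_erase hi)]
    have h1 := (div_le_iff₀' (ha i0)).1 (Nat.le_ceil ((L - ∑ i, a i * q i) / a i0))
    have h2 := mul_lt_mul_of_pos_left (Nat.ceil_lt_add_one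
      (div_nonneg (sub_nonneg.2 (hQ1 q hq)) (ha i0).le)) (ha i0)
    rw [mul_add, mul_div_cancel₀ _ (ha i0).ne'] at h2
    rw [key, key, h0, zero_mul, zero_add]
    refine ⟨by linarith, by linarith, Finset.sum_eq_zero fun i _ => ?_⟩
    by_cases hi : δ i = 0
    · rw [hi, zero_mul]
    · rw [hQ0 q hq i (by simp [hJ, hi]), Nat.cast_zero, mul_zero]

theorem facial_single {X : Fin n → Space d} (hX : ∀ r i, ‖X r i‖ < 1) {v : Space d}
    (hv : ∀ i, ‖v i‖ = 1) {t : Fin m → ℝ} (ht : ∀ i, 0 < t i) {r : Fin n}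
    (h1 : ∀ i, X r i ∈ cap (v i) (3 * t i))
    (h2 : ∀ r' ∉ ({r} : Finset (Fin n)), X r' ∉ Set.pi univ fun i => cap (v i) (3 * m * t i)) :
    Facial X {r} := by
  set l : Space d →L[ℝ] ℝ := ∑ i, (t i)⁻¹ • (innerSL ℝ (v i)).comp
    (ContinuousLinearMap.proj (R := ℝ) (φ := fun i => V (d i)) i) with hl
  have hdep : ∀ x, ∑ i, (t i)⁻¹ * (1 - ⟪v i, x i⟫) = ∑ i, (t i)⁻¹ - l x := fun x => by
    simp [mul_sub, Finset.sum_sub_distrib, hl]
  refine ⟨l, l (X r), fun i hi => by rw [Finset.mem_singleton.1 hi], fun r' hr' => ?_⟩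
  have h3 := Finset.sum_le_card_nsmul Finset.univ (fun i => (t i)⁻¹ * (1 - ⟪v i, X r i⟫)) 3
    fun i _ => (inv_mul_le_iff₀ (ht i)).2 (by linarith [(h1 i).2])
  obtain ⟨i, hi⟩ : ∃ i, 3 * m * t i < 1 - ⟪v i, X r' i⟫ := by
    by_contra h
    push Not at h
    exact h2 r' hr' fun i _ => ⟨(hX r' i).le, h i⟩
  have h4 := Finset.single_le_sum (f := fun i => (t i)⁻¹ * (1 - ⟪v i, X r' i⟫))
    (fun i _ => mul_nonneg (inv_pos.2 (ht i)).le (depth_pos (hv i) (hX r' i)).1.le)
    (Finset.mem_univ i)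
  have h5 : 3 * m < (t i)⁻¹ * (1 - ⟪v i, X r' i⟫) := (lt_inv_mul_iff₀ (ht i)).2 (by linarith)
  rw [hdep, Finset.card_univ, Fintype.card_fin, nsmul_eq_mul] at h3
  rw [hdep] at h4
  linarith

theorem piece_eq {k : ℕ} {y : V k} {p q : ℕ} (h1 : y ∈ piece k (Real.exp (-p)))
    (h2 : y ∈ piece k (Real.exp (-q))) : p = q := by
  have key : ∀ p q : ℕ, y ∈ piece k (Real.exp (-p)) → y ∈ piece k (Real.exp (-q)) → q ≤ p := by
    intro p q h1 h2
    by_contra h
    have h3 : (p : ℝ) + 1 ≤ q := by exact_mod_cast not_le.1 h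
    have h4 : Real.exp (-q) * Real.exp 1 ≤ Real.exp (-p) := by
      rw [← Real.exp_add, Real.exp_le_exp]
      linarith
    nlinarith [(mem_piece.1 h1).1, (mem_piece.1 h2).2, Real.exp_one_gt_d9, Real.exp_pos (-q : ℝ)]
  exact le_antisymm (key q p h2 h1) (key p q h1 h2)

theorem prob_lower (hd : ∀ i, 1 ≤ d i) (hβ : ∀ i, -1 < β i) {ρ : ℝ} (hρ : 0 ≤ ρ)
    {δ : Fin m → ℝ} {i0 : Fin m} (h0 : δ i0 = 0)
    (hb : ∀ i, ((d i : ℝ) - 1) / 2 = ρ * ex (d i) (β i) - δ i) :
    ∃ c : ℝ, 0 < c ∧ ∀ n : ℕ, 1 ≤ n → ∀ S : Finset (Fin n), S.card = 1 →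
      c * (n ^ ρ * Real.log n ^ ((Finset.univ.filter fun i => δ i = 0).card - 1)) ≤
        n * (Measure.pi fun _ : Fin n => blockBeta d β).real {X | Facial X S} := by
  classical
  have hm : (0 : ℝ) < m := by exact_mod_cast i0.pos
  have := block_prob hd hβ
  choose c C hc hC U hU1 hU2 hU3 using fun i => block_lower (hd i) (hβ i) (M := 3 * m)
    (by positivity)
  have hc' : 0 < ∏ i, c i := Finset.prod_pos fun i _ => hc i
  have hC' : 1 ≤ ∏ i, C i := by
    simpa using Finset.prod_le_prod (s := Finset.univ) (fun _ _ => zero_le_one) fun i _ => hC i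
  obtain ⟨c1, hc1, h1⟩ := exists_lattice δ (fun i => ex_pos (hd i) (hβ i)) h0
  refine ⟨c1 * (∏ i, c i) * ((∏ i, c i) * Real.exp (-ex (d i0) (β i0)) / (2 * ∏ i, C i) / 2),
    by positivity, fun n hn S hS => ?_⟩
  obtain ⟨r, rfl⟩ := Finset.card_eq_one.1 hS
  have hn1 : (1 : ℝ) ≤ n := by exact_mod_cast hn
  have hL0 := Real.log_nonneg hn1
  have hL : Real.log n ≤ Real.log (2 * (∏ i, C i) * n) := Real.log_le_log (by linarith) (by nlinarith)
  obtain ⟨T, hT1, hT2⟩ := h1 _ (hL0.trans hL)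
  set P := Measure.pi fun _ : Fin n => blockBeta d β with hP
  set I := T.sigma fun p => Fintype.piFinset fun i => U i (p i) with hI
  set Ev : (Σ _ : Fin m → ℕ, Space d) → Set (Fin n → Space d) := fun z => {X |
    (∀ r' ∈ ({r} : Finset (Fin n)), X r' ∈ Set.pi univ fun i =>
      cap (z.2 i) (3 * Real.exp (-z.1 i)) ∩ piece (d i) (Real.exp (-z.1 i))) ∧
    ∀ r' ∉ ({r} : Finset (Fin n)), X r' ∉ Set.pi univ fun i =>
      cap (z.2 i) (3 * m * Real.exp (-z.1 i))} with hEv
  have hmem : ∀ z ∈ I, z.1 ∈ T ∧ ∀ i, z.2 i ∈ U i (z.1 i) := fun z hz =>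
    ⟨(Finset.mem_sigma.1 hz).1, Fintype.mem_piFinset.1 (Finset.mem_sigma.1 hz).2⟩
  have hdisj : (I : Set _).PairwiseDisjoint Ev := by
    rintro ⟨p, v⟩ hz ⟨p', v'⟩ hz' hne
    refine disjoint_left.2 fun X hX hX' => hne ?_
    have h2 := fun i => hX.1 r (Finset.mem_singleton_self r) i (mem_univ i)
    have h3 := fun i => hX'.1 r (Finset.mem_singleton_self r) i (mem_univ i)
    obtain rfl : p = p' := funext fun i => piece_eq (h2 i).2 (h3 i).2
    obtain rfl : v = v' :=
      funext fun i => hU2 i _ _ ((hmem _ hz).2 i) _ ((hmem _ hz').2 i) _ (h2 i).1 (h3 i).1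
    rfl
  have hmeas : ∀ z, MeasurableSet (Ev z) := fun z => by
    have key : ∀ A B : Set (Space d), MeasurableSet A → MeasurableSet B → MeasurableSet
        {X : Fin n → Space d | (∀ r' ∈ ({r} : Finset (Fin n)), X r' ∈ A) ∧
          ∀ r' ∉ ({r} : Finset (Fin n)), X r' ∉ B} := fun A B hA hB => by
      simp only [ofPred_and, ofPred_forall]
      exact (MeasurableSet.iInter fun r' => MeasurableSet.iInter fun _ =>
        measurable_pi_apply r' hA).inter
        (MeasurableSet.iInter fun r' => MeasurableSet.iInter fun _ =>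
          (measurable_pi_apply r' hB).compl)
    exact key _ _
      (MeasurableSet.univ_pi fun i => (measurableSet_cap _ _).inter (measurableSet_piece _))
      (MeasurableSet.univ_pi fun i => measurableSet_cap _ _)
  have hsub : (⋃ z ∈ I, Ev z : Set (Fin n → Space d)) ≤ᵐ[P] {X | Facial X {r}} := by
    filter_upwards [ae_inside hd hβ n] with X hX hF
    obtain ⟨z, hz, h2, h3⟩ := mem_iUnion₂.1 hF
    exact facial_single hX (fun i => (hU3 i _ _ ((hmem z hz).2 i)).1) (fun i => Real.exp_pos _)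
      (fun i => (h2 r (Finset.mem_singleton_self r) i (mem_univ i)).1) h3
  have hexp : Real.exp (-Real.log (2 * (∏ i, C i) * n)) = (2 * (∏ i, C i) * n)⁻¹ := by
    rw [Real.exp_neg, Real.exp_log (by positivity)]
  have hev : ∀ z ∈ I, (∏ i, c i) * Real.exp (-ex (d i0) (β i0)) / (2 * ∏ i, C i) / 2 / n ≤
      P.real (Ev z) := by
    intro z hz
    obtain ⟨h2, h3, -⟩ := hT2 _ (hmem z hz).1
    have hprod : ∀ c : Fin m → ℝ, ∏ i, c i * Real.exp (-(ex (d i) (β i) * z.1 i)) =
        (∏ i, c i) * Real.exp (-∑ i, ex (d i) (β i) * z.1 i) := fun c => by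
      rw [Finset.prod_mul_distrib, ← Real.exp_sum, Finset.sum_neg_distrib]
    rw [hEv, pi_event _ _ _ (MeasurableSet.univ_pi fun i => measurableSet_cap _ _), hS, pow_one,
      block_box hd hβ, block_box hd hβ]
    have h4 := Finset.prod_le_prod (s := Finset.univ)
      (fun i _ => mul_nonneg (hc i).le (Real.exp_pos _).le)
      fun i _ => (hU3 i _ _ ((hmem z hz).2 i)).2.1
    have h5 := Finset.prod_le_prod (s := Finset.univ) (fun _ _ => measureReal_nonneg)
      fun i _ => (hU3 i _ _ ((hmem z hz).2 i)).2.2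
    rw [hprod] at h4 h5
    have h6 := h5.trans (mul_le_mul_of_nonneg_left ((Real.exp_le_exp.2 (neg_le_neg h2)).trans
      hexp.le) (by positivity))
    rw [show (∏ i, C i) * (2 * (∏ i, C i) * n)⁻¹ = (2 * (n : ℝ))⁻¹ by field_simp] at h6
    have h7 : (2 * (n : ℝ))⁻¹ ≤ 1 := inv_le_one_of_one_le₀ (by linarith)
    have h8 := (one_add_mul_le_pow (a := -(2 * (n : ℝ))⁻¹) (by linarith) (n - 1)).trans
      (pow_le_pow_left₀ (by linarith) (by linarith : _ ≤ 1 - ∏ i, (betaBall (d i) (β i)).real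
        (cap (z.2 i) (3 * m * Real.exp (-z.1 i)))) _)
    have h9 : (1 : ℝ) / 2 ≤ 1 + (n - 1 : ℕ) * -(2 * (n : ℝ))⁻¹ := by
      rw [Nat.cast_pred hn]
      field_simp
      linarith
    have h10 := (mul_le_mul_of_nonneg_left (Real.exp_le_exp.2 (neg_le_neg h3)) hc'.le).trans h4
    rw [neg_add, Real.exp_add, hexp] at h10
    refine le_trans (le_of_eq ?_) (mul_le_mul h10 (h9.trans h8) (by norm_num)
      (Finset.prod_nonneg fun _ _ => measureReal_nonneg))
    field_simp
  have hcard : c1 * Real.log n ^ ((Finset.univ.filter fun i => δ i = 0).card - 1) *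
      ((∏ i, c i) * n ^ ρ) ≤ I.card := by
    rw [hI, Finset.card_sigma, Nat.cast_sum]
    refine le_trans ?_ (Finset.card_nsmul_le_sum T _ ((∏ i, c i) * n ^ ρ) fun p hp => ?_)
    · rw [nsmul_eq_mul]
      exact mul_le_mul_of_nonneg_right (le_trans (by gcongr) hT1) (by positivity)
    · obtain ⟨h2, -, h3⟩ := hT2 p hp
      rw [Fintype.card_piFinset, Nat.cast_prod]
      refine le_trans ?_ (Finset.prod_le_prod (fun i _ => mul_nonneg (hc i).le (Real.exp_pos _).le)
        fun i _ => hU1 i (p i))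
      rw [Finset.prod_mul_distrib, ← Real.exp_sum, Real.rpow_def_of_pos (by linarith)]
      refine mul_le_mul_of_nonneg_left (Real.exp_le_exp.2 ?_) hc'.le
      simp only [hb, sub_mul, Finset.sum_sub_distrib, h3, mul_assoc, ← Finset.mul_sum]
      nlinarith [mul_le_mul_of_nonneg_left (hL.trans h2) hρ]
  have h2 := Finset.card_nsmul_le_sum I _ _ hev
  rw [← measureReal_biUnion_finset hdisj fun z _ => hmeas z, nsmul_eq_mul] at h2
  have h3 := (mul_le_mul_of_nonneg_right hcard (by positivity)).trans (h2.trans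
    (ENNReal.toReal_mono (measure_ne_top _ _) (measure_mono_ae hsub)))
  refine le_trans (le_of_eq ?_) (mul_le_mul_of_nonneg_left h3 (by positivity))
  field_simp

end Pool.Agent.Lib.MP_7073fe_pr
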