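import Mathlib

/-!
Separated nets on the unit sphere.
-/

set_option autoImplicit false

open Set Module Metric MeasureTheory

namespace Pool.Agent.Lib.MP_7073fe_pr

/-- Euclidean space of dimension `k`. -/
abbrev V (k : ℕ) : Type := EuclideanSpace ℝ (Fin k)

/-- Volume of the unit ball. -/
noncomputable def om (k : ℕ) : ℝ := (volume : Measure (V k)).real (ball 0 1)

theorem om_pos (k : ℕ) : 0 < om k :=
  ENNReal.toReal_pos (measure_ball_pos volume _ one_pos).ne' measure_ball_lt_top.ne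

theorem vol_closedBall {k : ℕ} (x : V k) {r : ℝ} (hr : 0 ≤ r) :
    volume.real (closedBall x r) = r ^ k * om k := by
  rw [Measure.addHaar_real_closedBall _ _ hr, finrank_euclideanSpace_fin, om]

theorem vol_shell {k : ℕ} {a b : ℝ} (ha : 0 ≤ a) (hab : a ≤ b) :
    volume.real (closedBall (0 : V k) b \ closedBall 0 a) = (b ^ k - a ^ k) * om k := by
  rw [measureReal_sdiff (closedBall_subset_closedBall hab) measurableSet_closedBall
    measure_closedBall_lt_top.ne, vol_closedBall _ ha, vol_closedBall _ (ha.trans hab), sub_mul]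

theorem pow_sub_le {k : ℕ} {a b : ℝ} (ha : 0 ≤ a) (hab : a ≤ b) (hb : b ≤ 6) :
    b ^ k - a ^ k ≤ (b - a) * (k * 6 ^ (k - 1)) := by
  have := abs_pow_sub_pow_le b a k
  rw [abs_of_nonneg (sub_nonneg.2 hab), abs_of_nonneg ha, abs_of_nonneg (ha.trans hab),
    max_eq_left hab, mul_assoc] at this
  refine (le_abs_self _).trans (this.trans ?_)
  have := ha.trans hab
  have := sub_nonneg.2 hab
  gcongr

theorem exists_dir {k : ℕ} (hk : 1 ≤ k) (y : V k) : ∃ w : V k, ‖w‖ = 1 ∧ y = ‖y‖ • w := by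
  by_cases hy : y = 0
  · exact ⟨EuclideanSpace.single ⟨0, hk⟩ 1, by simp, by simp [hy]⟩
  · have := norm_ne_zero_iff.2 hy
    exact ⟨‖y‖⁻¹ • y, by simp [norm_smul, this], by simp [smul_smul, this]⟩

theorem card_sep {k : ℕ} {s : ℝ} (hs : 0 < s) (hs' : s ≤ 5) (U : Finset (V k))
    (h1 : ∀ u ∈ U, ‖u‖ = 1) (h2 : ∀ u ∈ U, ∀ v ∈ U, u ≠ v → s < ‖u - v‖) :
    U.card * s ^ k ≤ 2 ^ k * (2 * (k * 6 ^ (k - 1))) * s := by
  have hd : (U : Set (V k)).PairwiseDisjoint fun u => closedBall u (s / 2) := by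
    intro u hu v hv huv
    exact closedBall_disjoint_closedBall (by rw [dist_eq_norm]; linarith [h2 u hu v hv huv])
  have hsum := measureReal_biUnion_finset (μ := volume) hd (fun _ _ => measurableSet_closedBall)
    fun _ _ => measure_closedBall_lt_top.ne
  rw [Finset.sum_congr rfl fun u _ => vol_closedBall u (by linarith : 0 ≤ s / 2), Finset.sum_const,
    nsmul_eq_mul] at hsum
  have hsub : (⋃ u ∈ U, closedBall u (s / 2)) ⊆
      (closedBall (0 : V k) (1 + s) \ closedBall 0 (max (1 - s) 0)) ∪ {0} := by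
    intro y hy
    simp only [mem_iUnion, mem_closedBall, dist_eq_norm] at hy
    obtain ⟨u, hu, hy⟩ := hy
    have := abs_le.1 ((abs_norm_sub_norm_le y u).trans hy)
    rw [h1 u hu] at this
    by_cases h0 : y = 0
    · exact Or.inr h0
    · refine Or.inl ⟨by rw [mem_closedBall_zero_iff]; linarith, ?_⟩
      rw [mem_closedBall_zero_iff, not_le, max_lt_iff]
      exact ⟨by linarith, norm_pos_iff.2 h0⟩
  rcases U.eq_empty_or_nonempty with rfl | ⟨u, hu⟩
  · simp only [Finset.card_empty, Nat.cast_zero, zero_mul]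
    positivity
  have : Nontrivial (V k) := ⟨u, 0, fun h => by simpa [h] using h1 u hu⟩
  have hle := measureReal_mono (μ := volume) hsub (by
    refine (measure_union_lt_top ((measure_mono sdiff_subset).trans_lt measure_closedBall_lt_top)
      (by simp)).ne)
  have hle2 := hle.trans (measureReal_union_le _ _)
  have hm : max (1 - s) 0 ≤ 1 + s := max_le (by linarith) (by linarith)
  rw [hsum, vol_shell (le_max_right _ _) hm, Measure.real, measure_singleton,
    ENNReal.toReal_zero, add_zero, ← mul_assoc] at hle2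
  have h3 := (le_of_mul_le_mul_right hle2 (om_pos k)).trans
    (pow_sub_le (le_max_right _ _) hm (by linarith))
  have h4 : 1 + s - max (1 - s) 0 ≤ 2 * s := by linarith [le_max_left (1 - s) 0]
  calc (U.card : ℝ) * s ^ k = 2 ^ k * (U.card * (s / 2) ^ k) := by rw [div_pow]; field_simp
    _ ≤ 2 ^ k * (2 * s * (k * 6 ^ (k - 1))) :=
        mul_le_mul_of_nonneg_left (h3.trans (mul_le_mul_of_nonneg_right h4 (by positivity)))
          (by positivity)
    _ = _ := by ring

theorem card_cover {k : ℕ} (hk : 1 ≤ k) {s : ℝ} (hs : 0 < s) (hs' : s ≤ 5) (U : Finset (V k))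
    (h : ∀ w : V k, ‖w‖ = 1 → ∃ u ∈ U, ‖w - u‖ ≤ s) : (5 * 2 ^ k)⁻¹ * s ≤ U.card * s ^ k := by
  have hsub : closedBall (0 : V k) 1 \ closedBall 0 (1 - s / 5) ⊆ ⋃ u ∈ U, closedBall u (2 * s) := by
    rintro y ⟨h1, h2⟩
    rw [mem_closedBall_zero_iff] at h1 h2
    obtain ⟨w, hw, hy⟩ := exists_dir hk y
    obtain ⟨u, hu, hwu⟩ := h w hw
    simp only [mem_iUnion, mem_closedBall, dist_eq_norm]
    refine ⟨u, hu, (norm_sub_le_norm_sub_add_norm_sub y w u).trans ?_⟩
    have : w - y = (1 - ‖y‖) • w := by rw [sub_smul, one_smul, ← hy]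
    rw [norm_sub_rev y w, this, norm_smul, hw, Real.norm_of_nonneg (by linarith)]
    linarith [not_le.1 h2]
  have hle := (measureReal_mono (μ := volume) hsub (measure_biUnion_lt_top U.finite_toSet
    fun _ _ => measure_closedBall_lt_top).ne).trans (measureReal_biUnion_finset_le _ _)
  rw [Finset.sum_congr rfl fun u _ => vol_closedBall u (by linarith : 0 ≤ 2 * s), Finset.sum_const,
    nsmul_eq_mul, vol_shell (by linarith) (by linarith), ← mul_assoc, one_pow] at hle
  have h3 := le_of_mul_le_mul_right hle (om_pos k)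
  have h4 : (1 - s / 5) ^ k ≤ 1 - s / 5 := pow_le_of_le_one (by linarith) (by linarith) (by omega)
  rw [inv_mul_le_iff₀ (by positivity)]
  rw [mul_pow] at h3
  nlinarith

theorem exists_net {k : ℕ} (hk : 1 ≤ k) : ∃ c C : ℝ, 0 < c ∧ 0 < C ∧ ∀ s : ℝ, 0 < s → s ≤ 5 →
    ∃ U : Finset (V k), (∀ u ∈ U, ‖u‖ = 1) ∧ (∀ u ∈ U, ∀ v ∈ U, u ≠ v → s < ‖u - v‖) ∧
      (∀ w : V k, ‖w‖ = 1 → ∃ u ∈ U, ‖w - u‖ ≤ s) ∧ c * s ≤ U.card * s ^ k ∧
      U.card * s ^ k ≤ C * s := by
  classical
  refine ⟨(5 * 2 ^ k)⁻¹, 2 ^ k * (2 * (k * 6 ^ (k - 1))), by positivity, by positivity,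
    fun s hs hs' => ?_⟩
  set T : Set ℕ := {N | ∃ U : Finset (V k), (∀ u ∈ U, ‖u‖ = 1) ∧
    (∀ u ∈ U, ∀ v ∈ U, u ≠ v → s < ‖u - v‖) ∧ U.card = N} with hT
  have hb : BddAbove T := by
    refine ⟨⌈2 ^ k * (2 * (k * 6 ^ (k - 1))) * s / s ^ k⌉₊, ?_⟩
    rintro _ ⟨U, h1, h2, rfl⟩
    exact_mod_cast ((le_div_iff₀ (by positivity)).2 (card_sep hs hs' U h1 h2)).trans (Nat.le_ceil _)
  obtain ⟨U, h1, h2, h3⟩ := Nat.sSup_mem (s := T) ⟨0, ∅, by simp⟩ hb
  have h4 : ∀ w : V k, ‖w‖ = 1 → ∃ u ∈ U, ‖w - u‖ ≤ s := by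
    intro w hw
    by_contra hn
    push Not at hn
    have hwU : w ∉ U := fun h => by linarith [by simpa using hn w h]
    have : (insert w U).card ∈ T := by
      refine ⟨_, by simpa [hw] using h1, fun u hu v hv huv => ?_, rfl⟩
      rcases Finset.mem_insert.1 hu with rfl | hu' <;> rcases Finset.mem_insert.1 hv with rfl | hv'
      · exact absurd rfl huv
      · exact hn v hv'
      · rw [norm_sub_rev]
        exact hn u hu'
      · exact h2 u hu' v hv' huv
    have := le_csSup hb this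
    rw [Finset.card_insert_of_notMem hwU] at this
    omega
  exact ⟨U, h1, h2, h4, card_cover hk hs hs' U h4, card_sep hs hs' U h1 h2⟩

end Pool.Agent.Lib.MP_7073fe_pr
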