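import Pool.Agent.Lib.MP_7073fe_pr.Defs
import Pool.Agent.Lib.MP_7073fe_pr.Net

/-!
Masses of spherical shells under the beta distribution.
-/

set_option autoImplicit false

open Set Module Metric MeasureTheory

namespace Pool.Agent.Lib.MP_7073fe_pr

variable {k : ℕ} {β : ℝ}

/-- Points at depth between `t / 2` and `t` below the unit sphere. -/
def piece (k : ℕ) (t : ℝ) : Set (V k) := closedBall 0 (1 - t / 2) \ closedBall 0 (1 - t)

theorem mem_piece {t : ℝ} {y : V k} : y ∈ piece k t ↔ ‖y‖ ≤ 1 - t / 2 ∧ 1 - t < ‖y‖ := by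
  simp [piece]

theorem measurableSet_piece (t : ℝ) : MeasurableSet (piece k t) :=
  measurableSet_closedBall.diff measurableSet_closedBall

theorem rpow_bounds {x t : ℝ} (β : ℝ) (ht : 0 < t) (h1 : t / 2 ≤ x) (h2 : x ≤ 2 * t) :
    Real.exp (-|β|) * t ^ β ≤ x ^ β ∧ x ^ β ≤ Real.exp |β| * t ^ β := by
  have hx : 0 < x := by linarith
  have h3 : Real.log 2 < 1 := by linarith [Real.log_two_lt_d9]
  have h4 := Real.log_le_log (by linarith) h1
  have h5 := Real.log_le_log hx h2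
  rw [Real.log_div ht.ne' two_ne_zero] at h4
  rw [Real.log_mul two_ne_zero ht.ne'] at h5
  have h6 : |(Real.log x - Real.log t) * β| ≤ |β| := by
    rw [abs_mul]
    exact mul_le_of_le_one_left (abs_nonneg _) (abs_le.2 ⟨by linarith, by linarith⟩)
  rw [Real.rpow_def_of_pos hx, Real.rpow_def_of_pos ht, ← Real.exp_add, ← Real.exp_add,
    Real.exp_le_exp, Real.exp_le_exp]
  constructor <;> linarith [abs_le.1 h6]

theorem raw_apply {A : Set (V k)} (hA : MeasurableSet A) : rawBeta k β A =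
    ∫⁻ y in A ∩ closedBall 0 1, ENNReal.ofReal ((1 - ‖y‖ ^ 2) ^ β) := by
  rw [rawBeta, withDensity_apply _ hA, Measure.restrict_restrict hA]

theorem raw_ac : rawBeta k β ≪ volume :=
  (withDensity_absolutelyContinuous _ _).trans Measure.absolutelyContinuous_restrict

theorem raw_piece {t : ℝ} (ht : 0 < t) (ht' : t ≤ 1) :
    ENNReal.ofReal (Real.exp (-|β|) * t ^ β * volume.real (piece k t)) ≤ rawBeta k β (piece k t) ∧
    rawBeta k β (piece k t) ≤ ENNReal.ofReal (Real.exp |β| * t ^ β * volume.real (piece k t)) := by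
  have hsub : piece k t ⊆ closedBall 0 1 := fun y hy =>
    mem_closedBall_zero_iff.2 (by linarith [(mem_piece.1 hy).1])
  have hfin : volume (piece k t) ≠ ⊤ := ((measure_mono hsub).trans_lt measure_closedBall_lt_top).ne
  have hb : ∀ y ∈ piece k t, _ := fun y hy => rpow_bounds (x := 1 - ‖y‖ ^ 2) β ht
    (by nlinarith [mem_piece.1 hy, norm_nonneg y]) (by nlinarith [mem_piece.1 hy, norm_nonneg y])
  rw [raw_apply (measurableSet_piece t), inter_eq_left.2 hsub,
    ENNReal.ofReal_mul (by positivity), ENNReal.ofReal_mul (p := Real.exp |β| * t ^ β)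
    (by positivity), ofReal_measureReal hfin, ← setLIntegral_const, ← setLIntegral_const]
  exact ⟨setLIntegral_mono' (measurableSet_piece t) fun y hy =>
    ENNReal.ofReal_le_ofReal (hb y hy).1, setLIntegral_mono' (measurableSet_piece t) fun y hy =>
    ENNReal.ofReal_le_ofReal (hb y hy).2⟩

theorem vol_piece (hk : 1 ≤ k) {t : ℝ} (ht : 0 < t) (ht' : t ≤ 1) :
    (2 ^ k)⁻¹ * om k * t ≤ volume.real (piece k t) ∧
      volume.real (piece k t) ≤ k * 6 ^ (k - 1) * om k * t := by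
  rw [piece, vol_shell (by linarith) (by linarith)]
  have h0 := om_pos k
  constructor
  · obtain ⟨e, rfl⟩ : ∃ e, k = e + 1 := ⟨k - 1, by omega⟩
    have h1 : (1 - t) ^ e ≤ (1 - t / 2) ^ e := pow_le_pow_left₀ (by linarith) (by linarith) e
    have h2 : (2⁻¹ : ℝ) ^ e ≤ (1 - t / 2) ^ e := pow_le_pow_left₀ (by norm_num) (by linarith) e
    have h3 : (2 ^ (e + 1))⁻¹ * t ≤ (1 - t / 2) ^ (e + 1) - (1 - t) ^ (e + 1) := by
      rw [← inv_pow, pow_succ, pow_succ, pow_succ]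
      nlinarith [mul_le_mul_of_nonneg_right h1 (by linarith : 0 ≤ 1 - t),
        mul_le_mul_of_nonneg_right h2 ht.le]
    nlinarith [mul_le_mul_of_nonneg_right h3 h0.le]
  · have h1 := pow_sub_le (k := k) (a := 1 - t) (b := 1 - t / 2) (by linarith) (by linarith)
      (by linarith)
    have h2 : (0 : ℝ) ≤ k * 6 ^ (k - 1) := by positivity
    nlinarith [mul_le_mul_of_nonneg_right h1 h0.le, mul_nonneg (mul_nonneg h2 h0.le) ht.le]

theorem raw_out (hk : 1 ≤ k) : rawBeta k β {y | 1 ≤ ‖y‖} = 0 := by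
  have : Nontrivial (V k) := by
    obtain ⟨w, hw, -⟩ := exists_dir hk 0
    exact ⟨w, 0, fun h => by simp [h] at hw⟩
  rw [raw_apply (isClosed_le continuous_const continuous_norm).measurableSet]
  refine setLIntegral_measure_zero _ _ (measure_mono_null (fun y hy => ?_)
    (Measure.addHaar_sphere volume (0 : V k) 1))
  exact mem_sphere_zero_iff_norm.2 (le_antisymm (mem_closedBall_zero_iff.1 hy.2) hy.1)

theorem raw_shell (hk : 1 ≤ k) (hβ : -1 < β) : ∃ C : ℝ, 0 < C ∧ ∀ t : ℝ, 0 < t → t ≤ 1 →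
    rawBeta k β {y | 1 - t < ‖y‖} ≤ ENNReal.ofReal (C * t ^ (β + 1)) := by
  set r : ℝ := (2⁻¹ : ℝ) ^ (β + 1) with hr
  have hr0 : 0 < r := by positivity
  have hr1 : r < 1 := Real.rpow_lt_one (by norm_num) (by norm_num) (by linarith)
  have h0 := om_pos k
  have h1r := sub_pos.2 hr1
  refine ⟨Real.exp |β| * (k * 6 ^ (k - 1) * om k) * (1 - r)⁻¹, by positivity, fun t ht ht' => ?_⟩
  have hsub : {y : V k | 1 - t < ‖y‖} ⊆ {y | 1 ≤ ‖y‖} ∪ ⋃ j : ℕ, piece k (t * 2⁻¹ ^ j) := by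
    intro y hy
    by_cases h1 : 1 ≤ ‖y‖
    · exact Or.inl h1
    have h2 : 0 < (1 - ‖y‖) / t := div_pos (by linarith) ht
    have h3 : (1 - ‖y‖) / t < 1 := (div_lt_one ht).2 (by linarith [mem_ofPred_eq ▸ hy])
    obtain ⟨j, h4, h5⟩ : ∃ j : ℕ, 2⁻¹ ^ (j + 1) ≤ (1 - ‖y‖) / t ∧ (1 - ‖y‖) / t < 2⁻¹ ^ j := by
      obtain ⟨j, h4, h5⟩ := exists_nat_pow_near_of_lt_one h2 h3.le (by norm_num : (0 : ℝ) < 2⁻¹)
        (by norm_num)
      rcases h5.lt_or_eq with h5 | h5
      · exact ⟨j, h4.le, h5⟩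
      · rcases j with _ | j
        · exact absurd h5 (by simpa using h3.ne)
        · exact ⟨j, h5.ge, h5 ▸ pow_lt_pow_right_of_lt_one₀ (by norm_num) (by norm_num) (by omega)⟩
    rw [le_div_iff₀ ht, pow_succ] at h4
    rw [div_lt_iff₀ ht] at h5
    exact Or.inr (mem_iUnion.2 ⟨j, mem_piece.2 ⟨by linarith, by linarith⟩⟩)
  refine (measure_mono hsub).trans ((measure_union_le _ _).trans ?_)
  rw [raw_out hk, zero_add]
  refine (measure_iUnion_le _).trans ?_
  have hterm : ∀ j : ℕ, rawBeta k β (piece k (t * 2⁻¹ ^ j)) ≤ ENNReal.ofReal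
      (Real.exp |β| * (k * 6 ^ (k - 1) * om k) * t ^ (β + 1) * r ^ j) := fun j => by
    have h1 : 0 < t * 2⁻¹ ^ j := by positivity
    have h2 : t * 2⁻¹ ^ j ≤ 1 := mul_le_one₀ ht' (by positivity) (pow_le_one₀ (by norm_num)
      (by norm_num))
    refine (raw_piece h1 h2).2.trans (ENNReal.ofReal_le_ofReal ?_)
    have h3 : (t * 2⁻¹ ^ j) ^ β * (t * 2⁻¹ ^ j) = t ^ (β + 1) * r ^ j := by
      rw [← Real.rpow_add_one h1.ne', Real.mul_rpow ht.le (by positivity), hr,
        ← Real.rpow_pow_comm (by norm_num)]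
    calc _ ≤ Real.exp |β| * (t * 2⁻¹ ^ j) ^ β * (k * 6 ^ (k - 1) * om k * (t * 2⁻¹ ^ j)) :=
          mul_le_mul_of_nonneg_left (vol_piece hk h1 h2).2 (by positivity)
      _ = Real.exp |β| * (k * 6 ^ (k - 1) * om k) * ((t * 2⁻¹ ^ j) ^ β * (t * 2⁻¹ ^ j)) := by ring
      _ = _ := by rw [h3]; ring
  refine (ENNReal.tsum_le_tsum hterm).trans (le_of_eq ?_)
  rw [← ENNReal.ofReal_tsum_of_nonneg (fun j => by positivity)
    ((summable_geometric_of_lt_one hr0.le hr1).mul_left _), tsum_mul_left,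
    tsum_geometric_of_lt_one hr0.le hr1]
  congr 1
  ring

end Pool.Agent.Lib.MP_7073fe_pr
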