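import Mathlib

/-!
Lattice sums.
-/

set_option autoImplicit false

open Finset

namespace Pool.Agent.Lib.MP_7073fe_pr

theorem sum_abs {η a : ℝ} (hη : 0 < η) (ha : 0 < a) : ∃ C : ℝ, 0 < C ∧ ∀ y : ℝ,
    ∑' k : ℕ, ENNReal.ofReal (Real.exp (-η * |a * k - y|)) ≤ ENNReal.ofReal C := by
  set q := Real.exp (-η * a) with hq
  have hq0 : 0 < q := Real.exp_pos _
  have hq1 : 0 < 1 - q := sub_pos.2 (Real.exp_lt_one_iff.2 (by nlinarith))
  refine ⟨4 / (1 - q), by positivity, fun y => ENNReal.tsum_le_of_sum_range_le fun N => ?_⟩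
  rw [← ENNReal.ofReal_sum_of_nonneg fun _ _ => (Real.exp_pos _).le]
  refine ENNReal.ofReal_le_ofReal ?_
  set F : ℕ → ℝ := fun k => 1 / (1 + Real.exp (-η * (a * k - y))) with hF
  have key : ∀ k : ℕ, Real.exp (-η * |a * k - y|) ≤ 4 / (1 - q) * (F (k + 1) - F k) := by
    intro k
    set w := Real.exp (-η * (a * k - y)) with hw
    set e := Real.exp (-η * |a * k - y|) with he
    have hw0 : 0 < w := Real.exp_pos _
    have he0 : 0 < e := Real.exp_pos _
    have h1 : e ≤ w := Real.exp_le_exp.2 (by nlinarith [le_abs_self (a * k - y)])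
    have h2 : e * w ≤ 1 := by
      rw [← Real.exp_add]
      exact Real.exp_le_one_iff.2 (by nlinarith [neg_abs_le (a * k - y)])
    have h3 : F (k + 1) = 1 / (1 + q * w) := by
      simp only [hF, hq, hw, ← Real.exp_add]
      push_cast
      ring_nf
    have h4 : e * ((1 + w) * (1 + w)) ≤ 4 * w := by
      rcases le_total w 1 with h | h
      · nlinarith [mul_le_mul_of_nonneg_left (show (1 + w) * (1 + w) ≤ 4 by nlinarith) he0.le]
      · nlinarith [mul_le_mul_of_nonneg_left (show (1 + w) * (1 + w) ≤ 4 * (w * w) by nlinarith)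
          he0.le, mul_le_mul_of_nonneg_right h2 hw0.le]
    have h5 : 4 / (1 - q) * (1 / (1 + q * w) - 1 / (1 + w)) = 4 * w / ((1 + q * w) * (1 + w)) := by
      field_simp
      ring
    rw [h3, show F k = 1 / (1 + w) from rfl, h5, le_div_iff₀ (by positivity)]
    refine le_trans ?_ h4
    gcongr
    nlinarith
  refine (sum_le_sum fun k _ => key k).trans ?_
  rw [← mul_sum, sum_range_sub]
  refine mul_le_of_le_one_right (by positivity) ?_
  have h1 : F N ≤ 1 := (div_le_one (by positivity)).2 (by linarith [Real.exp_pos (-η * (a * N - y))])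
  have h2 : 0 ≤ F 0 := by positivity
  linarith

theorem sum_one {η a δ : ℝ} (hη : 0 < η) (ha : 0 < a) (hδ : 0 ≤ δ) : ∃ C : ℝ, 0 < C ∧
    ∀ L : ℝ, 1 ≤ L → ∑' k : ℕ, ENNReal.ofReal (Real.exp (-δ * k - η * max (a * k - L) 0)) ≤
      ENNReal.ofReal (C * if δ = 0 then L else 1) := by
  split_ifs with h
  · obtain ⟨C, hC, h1⟩ := sum_abs hη ha
    refine ⟨a⁻¹ + 1 + C, by positivity, fun L hL => ?_⟩
    have key : ∀ k : ℕ, ENNReal.ofReal (Real.exp (-δ * k - η * max (a * k - L) 0)) ≤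
        (if k ∈ range (⌊L / a⌋₊ + 1) then 1 else 0) +
          ENNReal.ofReal (Real.exp (-η * |a * k - L|)) := by
      intro k
      split_ifs with hk
      · refine le_add_right (ENNReal.ofReal_le_one.2 (Real.exp_le_one_iff.2 ?_))
        have := mul_nonneg hη.le (le_max_right (a * k - L) 0)
        rw [h]
        linarith
      · have h2 : L / a < k := (Nat.floor_lt (by positivity)).1 (by simpa using hk)
        rw [div_lt_iff₀ ha] at h2
        rw [zero_add, h, max_eq_left (by linarith), abs_of_nonneg (by linarith)]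
        simp
    refine (ENNReal.tsum_le_tsum key).trans ?_
    rw [ENNReal.tsum_add, tsum_eq_sum (s := range (⌊L / a⌋₊ + 1)) fun k hk => if_neg hk,
      sum_congr rfl fun k hk => if_pos hk, sum_const, card_range, nsmul_eq_mul, mul_one,
      ← ENNReal.ofReal_natCast]
    refine (add_le_add le_rfl (h1 L)).trans ?_
    rw [← ENNReal.ofReal_add (by positivity) hC.le]
    refine ENNReal.ofReal_le_ofReal ?_
    have := Nat.floor_le (by positivity : 0 ≤ L / a)
    rw [div_eq_inv_mul] at this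
    push_cast
    rw [div_eq_inv_mul]
    nlinarith
  · obtain ⟨C, hC, h1⟩ := sum_abs (lt_of_le_of_ne hδ (Ne.symm h)) one_pos
    refine ⟨C, hC, fun L _ => le_trans (ENNReal.tsum_le_tsum fun k =>
      ENNReal.ofReal_le_ofReal (Real.exp_le_exp.2 ?_)) (by simpa only [mul_one] using h1 0)⟩
    have := mul_nonneg hη.le (le_max_right (a * k - L) 0)
    rw [one_mul, sub_zero, Nat.abs_cast]
    linarith

theorem tsum_pi_le {κ : Type} [Fintype κ] (φ : κ → ℕ → ENNReal) :
    ∑' q : κ → ℕ, ∏ i, φ i (q i) ≤ ∏ i, ∑' k, φ i k := by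
  classical
  rw [ENNReal.tsum_eq_iSup_sum]
  refine iSup_le fun s => (sum_le_sum_of_subset (t := Fintype.piFinset fun i => s.image (· i))
    fun q hq => Fintype.mem_piFinset.2 fun i => mem_image_of_mem _ hq).trans ?_
  rw [← prod_univ_sum]
  exact prod_le_prod' fun i _ => ENNReal.sum_le_tsum _

theorem sum_upper {m : ℕ} {a δ : Fin m → ℝ} (ha : ∀ i, 0 < a i) (hδ : ∀ i, 0 ≤ δ i) {i0 : Fin m}
    (h0 : δ i0 = 0) {η : ℝ} (hη : 0 < η) : ∃ C : ℝ, 0 < C ∧ ∀ L : ℝ, 1 ≤ L →
    ∑' p : Fin m → ℕ, ENNReal.ofReal (Real.exp (-(∑ i, δ i * p i) - η * |∑ i, a i * p i - L|)) ≤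
      ENNReal.ofReal (C * L ^ ((univ.filter fun i => δ i = 0).card - 1)) := by
  have hm : (0 : ℝ) < m := by exact_mod_cast i0.pos
  obtain ⟨C0, hC0, h1⟩ := sum_abs (half_pos hη) (ha i0)
  choose C hC h2 using fun i => sum_one (η := η / 2 / m) (by positivity) (ha i) (hδ i)
  refine ⟨C0 * ∏ j : {j // j ≠ i0}, C j, mul_pos hC0 (prod_pos fun j _ => hC j), fun L hL => ?_⟩
  set φ : {j // j ≠ i0} → ℕ → ENNReal := fun j k =>
    ENNReal.ofReal (Real.exp (-δ j * k - η / 2 / m * max (a j * k - L) 0)) with hφ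
  have key : ∀ p : Fin m → ℕ,
      ENNReal.ofReal (Real.exp (-(∑ i, δ i * p i) - η * |∑ i, a i * p i - L|)) ≤
      ENNReal.ofReal (Real.exp (-(η / 2) * |a i0 * p i0 - (L - ∑ j : {j // j ≠ i0}, a j * p j)|)) *
        ∏ j, φ j (p j) := by
    intro p
    rw [hφ, ← ENNReal.ofReal_prod_of_nonneg fun _ _ => (Real.exp_pos _).le, ← Real.exp_sum,
      ← ENNReal.ofReal_mul (Real.exp_pos _).le, ← Real.exp_add]
    refine ENNReal.ofReal_le_ofReal (Real.exp_le_exp.2 ?_)
    have h3 : a i0 * p i0 - (L - ∑ j : {j // j ≠ i0}, a j * p j) = ∑ i, a i * p i - L := by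
      rw [Fintype.sum_eq_add_sum_subtype_ne _ i0]
      ring
    have h4 : ∑ j : {j // j ≠ i0}, max (a j * p j - L) 0 ≤ m * |∑ i, a i * p i - L| := by
      refine (sum_le_card_nsmul _ _ |∑ i, a i * p i - L| fun j _ => max_le (le_trans ?_
        (le_abs_self _)) (abs_nonneg _)).trans ?_
      · exact sub_le_sub_right (single_le_sum (f := fun i => a i * p i)
          (fun i _ => mul_nonneg (ha i).le (Nat.cast_nonneg _)) (mem_univ j.1)) L
      · rw [nsmul_eq_mul]
        refine mul_le_mul_of_nonneg_right ?_ (abs_nonneg _)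
        exact_mod_cast (Fintype.card_subtype_le _).trans (Fintype.card_fin m).le
    have h5 := mul_le_mul_of_nonneg_left h4 (by positivity : 0 ≤ η / 2 / m)
    rw [← mul_assoc, div_mul_cancel₀ _ hm.ne'] at h5
    rw [h3, sum_sub_distrib, ← mul_sum, Fintype.sum_eq_add_sum_subtype_ne _ i0, h0]
    simp only [neg_mul, sum_neg_distrib]
    linarith
  refine (ENNReal.tsum_le_tsum key).trans ?_
  rw [← (Equiv.funSplitAt i0 ℕ).symm.tsum_eq, ENNReal.tsum_prod', ENNReal.tsum_comm]
  have h3 : ∀ (k : ℕ) (q : {j // j ≠ i0} → ℕ) (j : {j // j ≠ i0}),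
      (Equiv.funSplitAt i0 ℕ).symm (k, q) j = q j := fun k q j => by simp [j.2]
  have h4 : ∀ (k : ℕ) (q : {j // j ≠ i0} → ℕ), (Equiv.funSplitAt i0 ℕ).symm (k, q) i0 = k :=
    fun k q => by simp
  simp only [h3, h4, ENNReal.tsum_mul_right]
  refine (ENNReal.tsum_le_tsum fun q => mul_le_mul_left (h1 _) _).trans ?_
  rw [ENNReal.tsum_mul_left, mul_assoc, ENNReal.ofReal_mul hC0.le]
  refine mul_le_mul_right ((tsum_pi_le φ).trans ((prod_le_prod'
    fun (j : {j // j ≠ i0}) _ => h2 j L hL).trans (le_of_eq ?_))) _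
  rw [← ENNReal.ofReal_prod_of_nonneg fun (j : {j // j ≠ i0}) _ =>
      mul_nonneg (hC j).le (by split_ifs <;> linarith),
    prod_mul_distrib, prod_ite, prod_const, prod_const_one, mul_one]
  congr 3
  rw [← card_erase_of_mem (a := i0) (by simpa using h0)]
  refine card_bij (fun j _ => j.1) (fun j hj => ?_) (fun _ _ _ _ h => Subtype.ext h) fun i hi => ?_
  · simpa [j.2] using hj
  · simp only [mem_erase, mem_filter, mem_univ, true_and] at hi
    exact ⟨⟨i, hi.1⟩, by simpa using hi.2, rfl⟩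

end Pool.Agent.Lib.MP_7073fe_pr
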