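import Pool.Agent.Lib.MP_7073fe_pr.Block
import Pool.Agent.Lib.MP_7073fe_pr.Sums

/-!
Upper bound for the probability that given points span a face.
-/

set_option autoImplicit false

open Set Module Metric MeasureTheory RealInnerProductSpace

namespace Pool.Agent.Lib.MP_7073fe_pr

variable {m : ℕ} {d : Fin m → ℕ} {β : Fin m → ℝ} {n : ℕ}

theorem depth_pos {k : ℕ} {u y : V k} (hu : ‖u‖ = 1) (hy : ‖y‖ < 1) :
    0 < 1 - ⟪u, y⟫ ∧ 1 - ⟪u, y⟫ ≤ 2 := by
  have := abs_le.1 (abs_real_inner_le_norm u y)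
  rw [hu, one_mul] at this
  constructor <;> linarith

theorem exists_scale {t : ℝ} (ht : 0 < t) (ht' : t ≤ 1) :
    ∃ p : ℕ, t ≤ Real.exp (-p) ∧ Real.exp (-p) ≤ 3 * t := by
  have h0 : 0 ≤ -Real.log t := neg_nonneg.2 (Real.log_nonpos ht.le ht')
  refine ⟨⌊-Real.log t⌋₊, ?_, ?_⟩
  · rw [← Real.log_le_iff_le_exp ht]
    linarith [Nat.floor_le h0]
  · calc _ ≤ Real.exp (1 + Real.log t) :=
          Real.exp_le_exp.2 (by linarith [Nat.lt_floor_add_one (-Real.log t)])
      _ ≤ _ := by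
          rw [Real.exp_add, Real.exp_log ht]
          nlinarith [Real.exp_one_lt_d9]

theorem facial_cover (hd : ∀ i, 1 ≤ d i) (U : ∀ i, ℕ → Finset (V (d i))) {ε : ℝ} (hε : 0 < ε)
    (hε' : ε ≤ 1) (hεm : 9 * ε * m ≤ 1) (hU : ∀ i p, ∀ v ∈ U i p, ‖v‖ = 1)
    (hc : ∀ i (p : ℕ) (w : V (d i)), ‖w‖ = 1 → ∃ v ∈ U i p, ‖w - v‖ ^ 2 ≤ ε * Real.exp (-p))
    {X : Fin n → Space d} (hX : ∀ r i, ‖X r i‖ < 1) {S : Finset (Fin n)} {r0 q : Fin n}
    (hr : r0 ∈ S) (hq : q ∉ S) (hS : Facial X S) :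
    ∃ p : Fin m → ℕ, ∃ v ∈ Fintype.piFinset fun i => U i (p i),
      (∀ r ∈ S, X r ∈ Set.pi univ fun i => cap (v i) (5 * Real.exp (-p i))) ∧
      ∀ r ∉ S, X r ∉ Set.pi univ fun i => cap (v i) (ε * Real.exp (-p i)) := by
  obtain ⟨l, c, h1, h2⟩ := hS
  obtain ⟨s, u, hs, hu, hl⟩ := exists_repr hd l
  set h := ∑ i, s i - c with hh
  have hdep : ∀ x, ∑ i, s i * (1 - ⟪u i, x i⟫) = h + (c - l x) := fun x => by
    simp only [mul_sub, mul_one, Finset.sum_sub_distrib, hl, hh]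
    ring
  have hnn : ∀ r i, 0 ≤ s i * (1 - ⟪u i, X r i⟫) := fun r i =>
    mul_nonneg (hs i) (depth_pos (hu i) (hX r i)).1.le
  have hle : ∀ r ∈ S, ∀ i, s i * (1 - ⟪u i, X r i⟫) ≤ h := fun r hr i => by
    have := Finset.single_le_sum (fun i _ => hnn r i) (Finset.mem_univ i)
    rwa [hdep, h1 r hr, sub_self, add_zero] at this
  have hpos : 0 < h := by
    by_contra hn
    have h0 : ∀ i, s i = 0 := fun i => by
      nlinarith [hle r0 hr i, (depth_pos (hu i) (hX r0 i)).1, hs i]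
    have := h2 q hq
    rw [← h1 r0 hr, hl, hl] at this
    simp [h0] at this
  have ht : ∀ i, ∃ t : ℝ, 0 < t ∧ t ≤ 1 ∧ s i * t ≤ h ∧ ∀ r ∈ S, 1 - ⟪u i, X r i⟫ ≤ 2 * t := by
    intro i
    by_cases hi : s i ≤ h
    · exact ⟨1, one_pos, le_rfl, by linarith, fun r _ => by
        linarith [(depth_pos (hu i) (hX r i)).2]⟩
    · have hs' : 0 < s i := by linarith
      refine ⟨h / s i, by positivity, (div_le_one hs').2 (by linarith),
        (mul_div_cancel₀ _ hs'.ne').le, fun r hr => ?_⟩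
      have : 1 - ⟪u i, X r i⟫ ≤ h / s i := (le_div_iff₀' hs').2 (hle r hr i)
      linarith [div_pos hpos hs']
  choose t ht1 ht2 ht3 ht4 using ht
  choose p hp1 hp2 using fun i => exists_scale (ht1 i) (ht2 i)
  choose v hv1 hv2 using fun i => hc i (p i) (u i) (hu i)
  refine ⟨p, v, Fintype.mem_piFinset.2 hv1, fun r hr i _ => ⟨(hX r i).le, ?_⟩, fun r hr hx => ?_⟩
  · nlinarith [depth_change (hu i) (hU i _ _ (hv1 i)) (hX r i).le, hv2 i, ht4 i r hr, hp1 i,
      Real.exp_pos (-p i : ℝ)]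
  · have h3 : ∀ i, s i * (1 - ⟪u i, X r i⟫) ≤ 9 * ε * h := fun i => by
      have h4 := depth_change (hU i _ _ (hv1 i)) (hu i) (hX r i).le
      rw [norm_sub_rev] at h4
      have h5 : 1 - ⟪u i, X r i⟫ ≤ 9 * ε * t i := by
        nlinarith [(hx i (mem_univ _)).2, hv2 i, mul_le_mul_of_nonneg_left (hp2 i) hε.le]
      nlinarith [mul_le_mul_of_nonneg_left h5 (hs i), mul_le_mul_of_nonneg_left (ht3 i) hε.le]
    have h4 := Finset.sum_le_card_nsmul _ _ _ fun i (_ : i ∈ Finset.univ) => h3 i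
    rw [hdep, Finset.card_univ, Fintype.card_fin, nsmul_eq_mul] at h4
    nlinarith [h2 r hr]

theorem pow_exp_le (j : ℕ) {c : ℝ} (hc : 0 < c) : ∃ C : ℝ, 0 < C ∧ ∀ z : ℝ,
    Real.exp z ^ (j + 1) * Real.exp (-(c * Real.exp z)) ≤ C * Real.exp (-|z|) := by
  refine ⟨max ((j + 2).factorial / c ^ (j + 2)) 1, by positivity, fun z => ?_⟩
  have hx := Real.exp_pos z
  rcases le_total z 0 with h | h
  · rw [abs_of_nonpos h, neg_neg]
    refine (mul_le_of_le_one_right (by positivity) (Real.exp_le_one_iff.2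
      (neg_nonpos.2 (by positivity)))).trans ((pow_le_of_le_one hx.le (Real.exp_le_one_iff.2 h)
      (by omega)).trans (le_mul_of_one_le_left hx.le (le_max_right _ _)))
  · refine le_trans ?_ (mul_le_mul_of_nonneg_right (le_max_left _ _) (by positivity))
    have := Real.pow_div_factorial_le_exp (c * Real.exp z) (by positivity) (j + 2)
    rw [div_le_iff₀ (by positivity)] at this
    rw [abs_of_nonneg h, Real.exp_neg, Real.exp_neg]
    field_simp
    calc _ = (c * Real.exp z) ^ (j + 2) := by ring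
      _ ≤ _ := by rw [mul_comm (c)] at this ⊢; linarith

theorem prob_upper (hd : ∀ i, 1 ≤ d i) (hβ : ∀ i, -1 < β i) {ρ : ℝ} (hρ : 0 ≤ ρ) (hρ' : ρ < 1)
    {δ : Fin m → ℝ} (hδ : ∀ i, 0 ≤ δ i) {i0 : Fin m} (h0 : δ i0 = 0)
    (hb : ∀ i, ((d i : ℝ) - 1) / 2 = ρ * ex (d i) (β i) - δ i) (j : ℕ) :
    ∃ C : ℝ, 0 < C ∧ ∀ n : ℕ, 2 * (j + 1) ≤ n → 3 ≤ n → ∀ S : Finset (Fin n), S.card = j + 1 →
      (n : ℝ) ^ (j + 1) * (Measure.pi fun _ : Fin n => blockBeta d β).real {X | Facial X S} ≤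
        C * (n ^ ρ * Real.log n ^ ((Finset.univ.filter fun i => δ i = 0).card - 1)) := by
  have hm : (1 : ℝ) ≤ m := by exact_mod_cast i0.pos
  have := block_prob hd hβ
  have hε : (0 : ℝ) < ((9 : ℝ) * m)⁻¹ := by positivity
  have hε' : ((9 : ℝ) * m)⁻¹ ≤ 1 := inv_le_one_of_one_le₀ (by linarith)
  choose c C hc hC U hU1 hU2 hU3 using fun i => block_upper (hd i) (hβ i) hε hε'
  have hc' : 0 < ∏ i, c i := Finset.prod_pos fun i _ => hc i
  have hC' : 0 < ∏ i, C i := Finset.prod_pos fun i _ => hC i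
  obtain ⟨C1, hC1, h1⟩ := pow_exp_le j (half_pos hc')
  obtain ⟨C2, hC2, h2⟩ := sum_upper (fun i => ex_pos (hd i) (hβ i)) hδ h0 (sub_pos.2 hρ')
  refine ⟨(∏ i, C i) ^ (j + 2) * C1 * C2, by positivity, fun n hn hn' S hS => ?_⟩
  have hn0 : (0 : ℝ) < n := by exact_mod_cast (by omega : 0 < n)
  have hL : 1 ≤ Real.log n := by
    rw [Real.le_log_iff_exp_le hn0]
    linarith [Real.exp_one_lt_d9, show (3 : ℝ) ≤ n by exact_mod_cast hn']
  obtain ⟨r0, hr⟩ : S.Nonempty := Finset.card_pos.1 (by omega)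
  obtain ⟨q, hq⟩ : Sᶜ.Nonempty :=
    Finset.card_pos.1 (by rw [Finset.card_compl, Fintype.card_fin]; omega)
  set P := Measure.pi fun _ : Fin n => blockBeta d β with hP
  set K := (∏ i, C i) ^ (j + 2) * C1 * n ^ ρ / n ^ (j + 1) with hK
  set Ev : (Fin m → ℕ) → Space d → Set (Fin n → Space d) := fun p v => {X |
    (∀ r ∈ S, X r ∈ Set.pi univ fun i => cap (v i) (5 * Real.exp (-p i))) ∧
      ∀ r ∉ S, X r ∉ Set.pi univ fun i => cap (v i) (((9 : ℝ) * m)⁻¹ * Real.exp (-p i))} with hEv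
  have hterm : ∀ p : Fin m → ℕ, P (⋃ v ∈ Fintype.piFinset fun i => U i (p i), Ev p v) ≤
      ENNReal.ofReal K * ENNReal.ofReal (Real.exp (-(∑ i, δ i * p i) -
        (1 - ρ) * |∑ i, ex (d i) (β i) * p i - Real.log n|)) := by
    intro p
    set A := ∑ i, ex (d i) (β i) * p i with hA
    have hprod : ∀ c : Fin m → ℝ, ∏ i, c i * Real.exp (-(ex (d i) (β i) * p i)) =
        (∏ i, c i) * Real.exp (-A) := fun c => by
      rw [Finset.prod_mul_distrib, ← Real.exp_sum, Finset.sum_neg_distrib]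
    have hev : ∀ v ∈ Fintype.piFinset fun i => U i (p i), P.real (Ev p v) ≤
        ((∏ i, C i) * Real.exp (-A)) ^ (j + 1) *
          Real.exp (-((∏ i, c i) / 2 * Real.exp (Real.log n - A))) := by
      intro v hv
      have hv := Fintype.mem_piFinset.1 hv
      rw [hEv, pi_event _ _ _ (MeasurableSet.univ_pi fun i => measurableSet_cap _ _), hS]
      refine mul_le_mul (pow_le_pow_left₀ measureReal_nonneg ?_ _) ?_
        (pow_nonneg (sub_nonneg.2 measureReal_le_one) _) (by positivity)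
      · rw [block_box hd hβ, ← hprod]
        exact Finset.prod_le_prod (fun _ _ => measureReal_nonneg) fun i _ => (hU3 i _ _ (hv i)).2.2
      · refine (pow_le_pow_left₀ (sub_nonneg.2 measureReal_le_one) (Real.one_sub_le_exp_neg _)
          _).trans ?_
        rw [← Real.exp_nat_mul, Real.exp_le_exp, mul_neg, neg_le_neg_iff, block_box hd hβ,
          sub_eq_add_neg, Real.exp_add, Real.exp_log hn0]
        have h3 : (n : ℝ) / 2 ≤ (n - (j + 1) : ℕ) := by
          rw [div_le_iff₀ two_pos]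
          exact_mod_cast (by omega : n ≤ (n - (j + 1)) * 2)
        calc _ = n / 2 * ((∏ i, c i) * Real.exp (-A)) := by ring
          _ ≤ _ := mul_le_mul h3 (by
            rw [← hprod]
            exact Finset.prod_le_prod (fun i _ => mul_nonneg (hc i).le (Real.exp_pos _).le)
              fun i _ => (hU3 i _ _ (hv i)).2.1) (by positivity) (by positivity)
    have hcard : ((Fintype.piFinset fun i => U i (p i)).card : ℝ) ≤
        (∏ i, C i) * Real.exp (ρ * A - ∑ i, δ i * p i) := by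
      rw [Fintype.card_piFinset, Nat.cast_prod, hA, Finset.mul_sum, ← Finset.sum_sub_distrib,
        Real.exp_sum, ← Finset.prod_mul_distrib]
      refine Finset.prod_le_prod (fun _ _ => Nat.cast_nonneg _) fun i _ => (hU1 i _).trans
        (le_of_eq ?_)
      rw [hb]
      ring_nf
    rw [← ENNReal.ofReal_mul (by positivity), ← ofReal_measureReal (measure_ne_top _ _)]
    refine ENNReal.ofReal_le_ofReal ((measureReal_biUnion_finset_le _ _).trans
      ((Finset.sum_le_card_nsmul _ _ _ hev).trans ?_))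
    rw [nsmul_eq_mul]
    refine (mul_le_mul_of_nonneg_right hcard (by positivity)).trans ?_
    have h3 := h1 (Real.log n - A)
    have h4 : Real.exp (-A) = Real.exp (Real.log n - A) / n := by
      rw [sub_eq_add_neg, Real.exp_add, Real.exp_log hn0]; field_simp
    have h5 : Real.exp (ρ * A - ∑ i, δ i * p i) * Real.exp (-|Real.log n - A|) ≤
        n ^ ρ * Real.exp (-(∑ i, δ i * p i) - (1 - ρ) * |A - Real.log n|) := by
      rw [Real.rpow_def_of_pos hn0, ← Real.exp_add, ← Real.exp_add, Real.exp_le_exp,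
        abs_sub_comm (Real.log n)]
      nlinarith [mul_le_mul_of_nonneg_left (le_abs_self (A - Real.log n)) hρ]
    calc _ = (∏ i, C i) ^ (j + 2) / n ^ (j + 1) * Real.exp (ρ * A - ∑ i, δ i * p i) *
          (Real.exp (Real.log n - A) ^ (j + 1) *
            Real.exp (-((∏ i, c i) / 2 * Real.exp (Real.log n - A)))) := by
          rw [h4, mul_pow, div_pow]; ring
      _ ≤ (∏ i, C i) ^ (j + 2) / n ^ (j + 1) * Real.exp (ρ * A - ∑ i, δ i * p i) *
          (C1 * Real.exp (-|Real.log n - A|)) := by gcongr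
      _ = (∏ i, C i) ^ (j + 2) / n ^ (j + 1) * C1 * (Real.exp (ρ * A - ∑ i, δ i * p i) *
          Real.exp (-|Real.log n - A|)) := by ring
      _ ≤ _ := (mul_le_mul_of_nonneg_left h5 (by positivity)).trans (le_of_eq (by rw [hK]; ring))
  have hsub : {X | Facial X S} ≤ᵐ[P] (⋃ p : Fin m → ℕ,
      ⋃ v ∈ Fintype.piFinset fun i => U i (p i), Ev p v : Set (Fin n → Space d)) := by
    filter_upwards [ae_inside hd hβ n] with X hX hF
    obtain ⟨p, v, hv, h⟩ := facial_cover hd U hε hε' (by field_simp; exact le_rfl)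
      (fun i p v hv => (hU3 i p v hv).1) hU2 hX hr (Finset.mem_compl.1 hq) hF
    exact mem_iUnion.2 ⟨p, mem_iUnion₂.2 ⟨v, hv, h⟩⟩
  have h3 := (measure_mono_ae hsub).trans ((measure_iUnion_le _).trans
    (ENNReal.tsum_le_tsum hterm))
  rw [ENNReal.tsum_mul_left] at h3
  have h4 := h3.trans (mul_le_mul_right (h2 _ hL) _)
  rw [← ENNReal.ofReal_mul (by positivity)] at h4
  refine (mul_le_mul_of_nonneg_left (ENNReal.toReal_le_of_le_ofReal (by positivity) h4)
    (by positivity)).trans (le_of_eq ?_)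
  rw [hK]
  field_simp

end Pool.Agent.Lib.MP_7073fe_pr
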